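import Pool.Agent.CSQ.Semi

/-!
# Stability
-/

open Polynomial TensorProduct Pool.Agent.Hhelper20.CS

namespace Pool.Agent.CSQ

variable {F : Type} [Field F] [Algebra ℂ F] {m : ℕ} (h : Hyp F m) {n k a : ℕ}

section

variable (hm : 0 < m) (ham : a < m) (q : Ar ℂ n k a)
  (hq : LinearIndependent ℂ fun (j : Fin k) (i : Fin n) => L0 h q i j)

theorem sys_V_eq : (sys h hm q hq).V = LinearMap.range (iot h q) := by
  rw [sys_V]
  exact (Fintype.range_linearCombination ℂ _).symm

theorem finrank_V : Module.finrank ℂ (sys h hm q hq).V = k := by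
  rw [sys_V, finrank_span_eq_card hq, Fintype.card_fin]

theorem finrank_W_le {W : Submodule ℂ (Fin n → F)} {S : Submodule F (Fin n → F)}
    (hWV : W ≤ (sys h hm q hq).V) (hWS : W ≤ S.restrictScalars ℂ) :
    Module.finrank ℂ W ≤ Module.finrank ℂ (KS h q S) := by
  rw [sys_V_eq] at hWV
  have h1 : W = (W.comap (iot h q)).map (iot h q) := by
    rw [Submodule.map_comap_eq, inf_eq_right.2 hWV]
  have h2 : W.comap (iot h q) ≤ KS h q S := fun z hz => hWS hz
  calc Module.finrank ℂ W = Module.finrank ℂ ↥((W.comap (iot h q)).map (iot h q)) := by rw [← h1]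
    _ ≤ Module.finrank ℂ ↥(W.comap (iot h q)) := Submodule.finrank_map_le _ _
    _ ≤ _ := Submodule.finrank_mono h2

include ham in
/-- The coherent system is `α`-stable for all `α > 0`. -/
theorem sys_stable (hgp : GenPos h q) (hn : 0 < n) (hnk : n < k) {α : ℝ} (hα : 0 < α) :
    (sys h hm q hq).IsStable α := by
  intro S W hS hSW hWV hWS
  have hnR : (0 : ℝ) < n := by exact_mod_cast hn
  have hdeg : ((sys h hm q hq).deg : ℝ) = 2 * n * a := by
    rw [sys_deg h hm q hq ham]
    push_cast
    rfl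
  by_cases hT : S = ⊤
  · subst hT
    have hne : W ≠ (sys h hm q hq).V := fun e => hSW ⟨rfl, e⟩
    have hVf : Module.Finite ℂ (sys h hm q hq).V :=
      Module.finite_of_finrank_pos (by rw [finrank_V]; omega)
    have hlt := Submodule.finrank_lt_finrank_of_lt (lt_of_le_of_ne hWV hne)
    rw [finrank_V] at hlt
    have hlt' : (Module.finrank ℂ W : ℝ) < k := by exact_mod_cast hlt
    rw [finrank_top, Module.finrank_fintype_fun_eq_card, Fintype.card_fin]
    change (((sys h hm q hq).deg : ℝ) + α * Module.finrank ℂ W) / n < _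
    apply div_lt_div_of_pos_right _ hnR
    have := mul_lt_mul_of_pos_left hlt' hα
    linarith
  · have h1 := (finrank_W_le h hm q hq hWV hWS).trans (hgp S hT)
    have h2 : Module.finrank F S < n := finrank_lt hT
    have h3 : 0 < Module.finrank F S := by
      rw [Module.finrank_pos_iff, Submodule.nontrivial_iff_ne_bot]
      exact hS
    have h4 : ((sys h hm q hq).degSub S : ℝ) ≤ 2 * a * Module.finrank F S := by
      exact_mod_cast degSub_le_mul h hm ham q hq S
    obtain ⟨r, hr⟩ : ∃ r, r = Module.finrank F S := ⟨_, rfl⟩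
    obtain ⟨w, hw⟩ : ∃ w, w = Module.finrank ℂ W := ⟨_, rfl⟩
    rw [← hr] at h4 h3
    rw [← hr, ← hw]
    rw [← hw, ← hr] at h1
    rw [hdeg]
    have hrR : (1 : ℝ) ≤ r := by exact_mod_cast (h3 : 1 ≤ r)
    have hwr : (w : ℝ) ≤ r := by exact_mod_cast h1
    have hnk' : (n : ℝ) < k := by exact_mod_cast hnk
    have h5 : (((sys h hm q hq).degSub S : ℝ) + α * w) / r ≤ 2 * a + α := by
      rw [div_le_iff₀ (by linarith)]
      have h6 : α * w ≤ α * r := mul_le_mul_of_nonneg_left hwr hα.le
      linarith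
    refine lt_of_le_of_lt h5 ?_
    rw [lt_div_iff₀ hnR]
    have h7 : α * n < α * k := mul_lt_mul_of_pos_left hnk' hα
    linarith

end

end Pool.Agent.CSQ
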