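import Pool.Agent.CSQ.GenPos
import Pool.Agent.CSQ.Stable

/-!
# The sections `∑ i, binom(p, j - i) x ^ (t j - t i) e_i`
-/

open Polynomial TensorProduct Pool.Agent.Hhelper20.CS

namespace Pool.Agent.CSQ

/-- The array of the `n + p` sections of `A ^ n`, `A` of degree `2 a`. -/
noncomputable def qE (n p a : ℕ) (t : ℕ → ℕ) : Ar ℂ n (n + p) a := fun i j d =>
  if (i : ℕ) ≤ j ∧ (d : ℕ) = t j - t i then (p.choose (j - i) : ℂ) else 0

theorem sum_qE (n p : ℕ) {a : ℕ} {t : ℕ → ℕ} (ht : StrictMono t) (hta : ∀ i, t (i + p) = t i + a)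
    {M : Type} [AddCommGroup M] [Module ℂ M] (G : ℕ → M)
    (i : Fin n) (j : Fin (n + p)) : ∑ d : Fin (a + 1), qE n p a t i j d • G d =
      if (i : ℕ) ≤ j then (p.choose (j - i) : ℂ) • G (t j - t i) else 0 := by
  by_cases hij : (i : ℕ) ≤ j
  · rw [if_pos hij]
    by_cases hp : (j : ℕ) - i ≤ p
    · have hlt : t j - t i < a + 1 := by
        have h1 : t j ≤ t (i + p) := ht.monotone (by omega)
        rw [hta] at h1
        omega
      rw [Finset.sum_eq_single ⟨t j - t i, hlt⟩]
      · simp [qE, hij]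
      · intro d _ hd
        have : ¬ ((i : ℕ) ≤ j ∧ (d : ℕ) = t j - t i) := fun e => hd (Fin.ext e.2)
        simp only [qE, if_neg this, zero_smul]
      · intro e
        exact absurd (Finset.mem_univ _) e
    · rw [Nat.choose_eq_zero_of_lt (not_le.1 hp), Nat.cast_zero, zero_smul]
      refine Finset.sum_eq_zero fun d _ => ?_
      unfold qE
      rw [Nat.choose_eq_zero_of_lt (not_le.1 hp), Nat.cast_zero, ite_self, zero_smul]
  · rw [if_neg hij]
    refine Finset.sum_eq_zero fun d _ => ?_
    have : ¬ ((i : ℕ) ≤ j ∧ (d : ℕ) = t j - t i) := fun e => hij e.1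
    simp only [qE, if_neg this, zero_smul]

theorem pol_qE (n p : ℕ) {a : ℕ} {t : ℕ → ℕ} (ht : StrictMono t) (hta : ∀ i, t (i + p) = t i + a)
    (i : Fin n) (j : Fin (n + p)) : pol (qE n p a t) i j = qP p t i j := by
  have h1 := sum_qE n p ht hta (fun d => (X : ℂ[X]) ^ d) i j
  simp only [Polynomial.smul_eq_C_mul] at h1
  rw [pol, h1]
  rfl

variable {F : Type} [Field F] [Algebra ℂ F] {m : ℕ} (h : Hyp F m) {n p a : ℕ} {t : ℕ → ℕ}
  (ht : StrictMono t) (hta : ∀ i, t (i + p) = t i + a)

include ht hta in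
theorem iot_qE (z : Fin (n + p) → ℂ) (i : Fin n) :
    iot h (qE n p a t) z i = aeval h.x (∑ j : Fin (n + p), C (z j) * qP p t i j) := by
  rw [iot_apply, Matrix.mulVec, dotProduct, map_sum]
  refine Finset.sum_congr rfl fun j _ => ?_
  rw [map_mul, aeval_C, ← pol_qE n p ht hta, aeval_pol, mul_comm]

include ht hta in
theorem hypPos_qE : HypPos h (qE n p a t) := by
  intro f hf
  have hfsum : ∀ v : Fin n → F, f v = ∑ i, v i * f (Pi.single i 1) := by
    intro v
    have h1 : v = ∑ i, v i • (Pi.single i (1 : F) : Fin n → F) := by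
      funext j
      simp [Finset.sum_apply, Pi.single_apply]
    conv_lhs => rw [h1]
    rw [map_sum]
    exact Finset.sum_congr rfl fun i _ => by rw [map_smul, smul_eq_mul]
  choose a' b d hd hz using fun i => h.gen (f (Pi.single i 1))
  let D : ℂ[X] := ∏ i, d i
  let D' : Fin n → ℂ[X] := fun i => ∏ i' ∈ Finset.univ.erase i, d i'
  have hD : ∀ i, d i * D' i = D := fun i =>
    Finset.mul_prod_erase Finset.univ d (Finset.mem_univ i)
  have hD0 : ∀ i, D' i ≠ 0 := fun i => Finset.prod_ne_zero_iff.2 fun i' _ => hd i'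
  let A : Fin n → ℂ[X] := fun i => a' i * D' i
  let B : Fin n → ℂ[X] := fun i => b i * D' i
  have hAB : ∀ i, f (Pi.single i 1) * aeval h.x D = aeval h.x (A i) + aeval h.x (B i) * h.y := by
    intro i
    rw [← hD i]
    simp only [A, B, map_mul]
    linear_combination aeval h.x (D' i) * hz i
  have hne : A ≠ 0 ∨ B ≠ 0 := by
    by_contra hcon
    push Not at hcon
    apply hf
    apply LinearMap.ext
    intro v
    rw [hfsum, LinearMap.zero_apply]
    refine Finset.sum_eq_zero fun i _ => ?_
    have h1 : f (Pi.single i 1) = 0 := by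
      have hA : A i = 0 := congrFun hcon.1 i
      have hB : B i = 0 := congrFun hcon.2 i
      have h2 := hAB i
      rw [hA, hB, map_zero, zero_mul, add_zero] at h2
      have hDF : aeval h.x D ≠ 0 := by
        intro e
        have h3 := h.inj e
        rw [← hD i] at h3
        exact mul_ne_zero (hd i) (hD0 i) h3
      exact (mul_eq_zero.1 h2).resolve_right hDF
    rw [h1, mul_zero]
  have hker : ∀ z ∈ KS h (qE n p a t) (LinearMap.ker f),
      (∑ j : Fin (n + p), C (z j) * ∑ i : Fin n, A i * qP p t i j) = 0 ∧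
      (∑ j : Fin (n + p), C (z j) * ∑ i : Fin n, B i * qP p t i j) = 0 := by
    intro z hz'
    rw [mem_KS, LinearMap.mem_ker, hfsum] at hz'
    have h1 : ∑ i : Fin n, aeval h.x (∑ j : Fin (n + p), C (z j) * qP p t i j) *
        (aeval h.x (A i) + aeval h.x (B i) * h.y) = 0 := by
      have h2 := congrArg (fun w => w * aeval h.x D) hz'
      simp only [zero_mul, Finset.sum_mul] at h2
      rw [← h2]
      refine Finset.sum_congr rfl fun i _ => ?_
      rw [← hAB, iot_qE h ht hta]
      ring
    have h3 := h.indep (∑ i : Fin n, (∑ j : Fin (n + p), C (z j) * qP p t i j) * A i)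
      (∑ i : Fin n, (∑ j : Fin (n + p), C (z j) * qP p t i j) * B i) (by
        rw [← h1, map_sum, map_sum, Finset.sum_mul, ← Finset.sum_add_distrib]
        refine Finset.sum_congr rfl fun i _ => ?_
        rw [map_mul (aeval h.x) _ (A i), map_mul (aeval h.x) _ (B i)]
        ring)
    have h4 : ∀ G : Fin n → ℂ[X], (∑ j : Fin (n + p), C (z j) * ∑ i : Fin n, G i * qP p t i j) =
        ∑ i : Fin n, (∑ j : Fin (n + p), C (z j) * qP p t i j) * G i := by
      intro G
      simp only [Finset.mul_sum, Finset.sum_mul]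
      rw [Finset.sum_comm]
      refine Finset.sum_congr rfl fun i _ => Finset.sum_congr rfl fun j _ => ?_
      ring
    rw [h4, h4]
    exact h3
  obtain ⟨Z, hZ, hinj⟩ : ∃ Z : Finset (Fin (n + p)), Z.card < n ∧
      ∀ z ∈ KS h (qE n p a t) (LinearMap.ker f), (∀ j ∈ Z, z j = 0) → z = 0 := by
    rcases hne with hA | hB
    · obtain ⟨Z, hZ, hh⟩ := exists_few n p ht A hA
      exact ⟨Z, hZ, fun z hz' h0 => hh z h0 (hker z hz').1⟩
    · obtain ⟨Z, hZ, hh⟩ := exists_few n p ht B hB
      exact ⟨Z, hZ, fun z hz' h0 => hh z h0 (hker z hz').2⟩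
  refine lt_of_le_of_lt ?_ hZ
  let g : KS h (qE n p a t) (LinearMap.ker f) →ₗ[ℂ] (Z → ℂ) :=
    LinearMap.pi fun j => LinearMap.proj (j : Fin (n + p)) ∘ₗ
      (KS h (qE n p a t) (LinearMap.ker f)).subtype
  have hg : Function.Injective g := by
    rw [injective_iff_map_eq_zero]
    intro z hz'
    apply Subtype.ext
    refine hinj z z.2 fun j hj => ?_
    exact congrFun hz' ⟨j, hj⟩
  have h1 := LinearMap.finrank_le_finrank_of_injective hg
  rwa [Module.finrank_fintype_fun_eq_card, Fintype.card_coe] at h1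

include ht hta in
theorem genPos_qE : GenPos h (qE n p a t) :=
  genPos_of_hypPos h (hypPos_qE h ht hta) (Nat.le_add_right _ _)

/-! ### Rigidity -/

theorem co_shift {u : F} (hu : u ∈ Sp h.lb Set.univ) (d e : ℤ) :
    co h.lb_indep (h.x ^ d * u) (Sum.inr e) = co h.lb_indep u (Sum.inr (e - d)) := by
  induction hu using Submodule.span_induction with
  | zero => simp
  | add a b _ _ ha hb => rw [mul_add, map_add, map_add, Finsupp.add_apply, Finsupp.add_apply, ha, hb]
  | smul r a _ ha => rw [mul_smul_comm, map_smul, map_smul, Finsupp.smul_apply,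
      Finsupp.smul_apply, ha]
  | mem a ha =>
    obtain ⟨i, -, rfl⟩ := ha
    rw [← h.lb_sh, co_b, co_b]
    rcases i with i | i
    · simp [Hyp.sh]
    · simp only [Hyp.sh, Sum.map_inr, Finsupp.single_apply, Sum.inr.injEq]
      by_cases hi : i + d = e
      · rw [if_pos hi, if_pos (by omega)]
      · rw [if_neg hi, if_neg (by omega)]

include ht hta in
/-- The deformations of the bundle to which the sections extend are trivial. -/
theorem rigid_qE (hmc : t (n + p - 1) + a < m) (hn : 0 < n) : Rigid h (qE n p a t) := by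
  intro u hu hR
  let v : Fin n → ℤ → ℂ := fun i e => co h.lb_indep (u i) (Sum.inr e)
  have EQ : ∀ (j : Fin (n + p)) (e : ℤ), (a : ℤ) - m < e → e < 0 →
      ∑ i : Fin n, (if (i : ℕ) ≤ j then (p.choose (j - i) : ℂ) •
        v i (e - ((t j - t i : ℕ) : ℤ)) else 0) = 0 := by
    intro j e he1 he2
    have h1 : co h.lb_indep (∑ i, u i * L0 h (qE n p a t) i j) (Sum.inr e) = 0 := by
      refine co_eq_zero h.lb_indep (hR j) ?_
      rintro (h2 | h2)
      · have h3 : 0 ≤ e := h2
        omega
      · have h3 : e ≤ (a : ℤ) - m := h2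
        omega
    rw [map_sum, Finsupp.finsetSum_apply] at h1
    refine Eq.trans ?_ h1
    refine Finset.sum_congr rfl fun i _ => ?_
    rw [L0_apply, Finset.mul_sum, map_sum, Finsupp.finsetSum_apply,
      ← sum_qE n p ht hta (fun d => v i (e - (d : ℤ))) i j]
    refine Finset.sum_congr rfl fun d _ => ?_
    rw [mul_smul_comm, map_smul, Finsupp.smul_apply, mul_comm (u i), ← zpow_natCast,
      co_shift h (hu i)]
  -- equations from the first columns
  have C1 : ∀ (s : ℕ) (f : ℤ), -f < (m : ℤ) - a → ∀ i : Fin n, (i : ℕ) = s →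
      f + (t i : ℤ) < 0 → v i (f + (t i : ℤ)) = 0 := by
    intro s
    induction s using Nat.strong_induction_on with
    | _ s ih =>
      intro f hf i hi hneg
      have h1 := EQ ⟨i, by omega⟩ (f + (t i : ℤ)) (by omega) hneg
      rw [Finset.sum_eq_single i] at h1
      · simpa using h1
      · intro i' _ hi'
        simp only
        split_ifs with hle
        · have hlt : (i' : ℕ) < i := lt_of_le_of_ne hle fun e => hi' (Fin.ext e)
          have e3 : t i' ≤ t i := ht.monotone hle
          have e1 : f + (t i : ℤ) - ((t i - t i' : ℕ) : ℤ) = f + (t i' : ℤ) := by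
            omega
          rw [e1, ih i' (by omega) f hf i' rfl, smul_zero]
          omega
        · rfl
      · intro e
        exact absurd (Finset.mem_univ _) e
  -- equations from the last columns
  have C2 : ∀ (s : ℕ) (f : ℤ), (t (n + p - 1) : ℤ) < -f → ∀ i : Fin n,
      (i : ℕ) + s = n - 1 → -(m : ℤ) < f + (t i : ℤ) →
      v i (f + (t i : ℤ)) = 0 := by
    intro s
    induction s using Nat.strong_induction_on with
    | _ s ih =>
      intro f hf i hi hpos
      have hin := i.2
      have e0 : t (i + p) ≤ t (n + p - 1) := ht.monotone (by omega)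
      have e4 : t (i + p) = t i + a := hta i
      have h1 := EQ ⟨i + p, by omega⟩ (f + (t (i + p) : ℤ)) (by omega) (by omega)
      rw [Finset.sum_eq_single i] at h1
      · have e5 : f + (t (i + p) : ℤ) - ((t (i + p) - t i : ℕ) : ℤ) = f + (t i : ℤ) := by
          omega
        rw [if_pos (Nat.le_add_right _ _)] at h1
        simp only at h1
        rw [e5, Nat.add_sub_cancel_left, Nat.choose_self, Nat.cast_one, one_smul] at h1
        exact h1
      · intro i' _ hi'
        simp only
        split_ifs with hle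
        · rcases lt_or_gt_of_ne (fun e => hi' (Fin.ext e) : (i' : ℕ) ≠ i) with hlt | hlt
          · rw [Nat.choose_eq_zero_of_lt (by omega), Nat.cast_zero, zero_smul]
          · have e2 : t i' ≤ t (i + p) := ht.monotone hle
            have e1 : f + (t (i + p) : ℤ) - ((t (i + p) - t i' : ℕ) : ℤ) = f + (t i' : ℤ) := by
              omega
            have hin' := i'.2
            have e3 : t i ≤ t i' := ht.monotone hlt.le
            rw [e1, ih (n - 1 - i') (by omega) f hf i' (by omega) (by omega), smul_zero]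
        · rfl
      · intro e
        exact absurd (Finset.mem_univ _) e
  intro i
  rw [mem_Sp_iff h.lb_indep]
  refine ⟨hu i, ?_⟩
  intro idx hidx
  have h1 : idx ∈ (Hyp.A0 ∪ Hyp.A1 m ((0 : ℕ) : ℤ))ᶜ := hidx
  rw [Hyp.compl_eq] at h1
  obtain ⟨e, ⟨he1, he2⟩, rfl⟩ := h1
  have hin := i.2
  have h2 : e - (t i : ℤ) + (t i : ℤ) = e := by ring
  change v i e = 0
  rw [← h2]
  by_cases hcase : -(e - (t i : ℤ)) < (m : ℤ) - a
  · exact C1 i _ hcase i rfl (by rw [h2]; exact he2)
  · refine C2 (n - 1 - i) _ (by omega) i (by omega) ?_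
    rw [h2]
    push_cast at he1
    omega

end Pool.Agent.CSQ
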