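import Pool.Agent.CSQ.Ex
import Pool.Agent.Hhelper20.CS.Model

/-!
# Local dimensions of the moduli spaces of coherent systems in the hyperelliptic family
-/

open Polynomial Pool.Agent.Hhelper20.CS

namespace Pool.Agent.CSQ

/-- The exponents. -/
def tt (p a i : ℕ) : ℕ := i * a / p

theorem tt_mono {p a : ℕ} (hp : 0 < p) (hpa : p ≤ a) : StrictMono (tt p a) := by
  apply strictMono_nat_of_lt_succ
  intro i
  unfold tt
  have h1 : i * a / p + 1 = (i * a + p) / p := (Nat.add_div_right _ hp).symm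
  rw [← Nat.succ_le_iff, Nat.succ_eq_add_one, h1]
  apply Nat.div_le_div_right
  rw [add_mul, one_mul]
  omega

theorem tt_add {p : ℕ} (a : ℕ) (hp : 0 < p) (i : ℕ) : tt p a (i + p) = tt p a i + a := by
  unfold tt
  rw [add_mul, Nat.add_mul_div_left _ _ hp]

/-- The coherent systems of the family. -/
theorem exists_sys (n p a g : ℕ) (hn : 1 ≤ n) (hp : 1 ≤ p) (hpa : p ≤ a)
    (hg2 : a + (n + p - 1) * a / p ≤ g) :
    ∃ (F : Type) (_ : Field F) (_ : Algebra ℂ F) (C : Curve F) (X : CohSys C ℂ n (n + p))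
      (N : ℕ), C.genus = g ∧ X.deg = 2 * n * a ∧ (∀ α : ℝ, 0 < α → X.IsStable α) ∧
      X.h1det = g - n * a ∧ X.localDim = N ∧
      N + (n + p) * (n + p) + n * n = n * ((n + p) * (a + 1)) + 1 := by
  have hm : Fact (0 < g + 1) := ⟨Nat.succ_pos g⟩
  let h := Hyp.model (g + 1)
  have ha : a < g + 1 := Nat.lt_succ_of_le (le_trans (Nat.le_add_right _ _) hg2)
  have ht := tt_mono hp hpa
  have hta := tt_add a hp
  have hmc : tt p a (n + p - 1) + a < g + 1 := by
    unfold tt
    omega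
  have hgp := genPos_qE h (n := n) ht hta
  have hq := indep_of_genPos h hgp hn
  have hst := stab_of_genPos h hgp hn (by omega)
  have hr := rigid_qE h ht hta hmc hn
  have h1 := finrank_range_Phi h hn hq hst
  have h2 := Submodule.finrank_le (LinearMap.range (Phi (qE n p a (tt p a))))
  obtain ⟨N, hN⟩ := Nat.exists_eq_add_of_le h2
  have h3 := finrank_Ar n (n + p) a
  refine ⟨_, inferInstance, inferInstance, h.curve hm.out, sys h hm.out (qE n p a (tt p a)) hq, N,
    ?_, ?_, ?_, ?_, ?_, ?_⟩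
  · rw [h.genus_curve]
    rfl
  · exact sys_deg h hm.out _ hq ha
  · intro α hα
    exact sys_stable h hm.out ha _ hq hgp hn (by omega) hα
  · rw [sys_h1det]
    rfl
  · exact localDim_eq h hm.out ha (by omega) _ hq hr hst hN.symm
  · rw [h3] at hN
    omega

/-- The family, with the comparison of the local dimension and the expected bound. -/
theorem exists_sys' (n k a g : ℕ) (hn : 1 ≤ n) (hk : n < k) (hka : k - n ≤ a)
    (hg1 : n * a ≤ g) (hg2 : a + (k - 1) * a / (k - n) ≤ g) :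
    ∃ (F : Type) (_ : Field F) (_ : Algebra ℂ F) (C : Curve F) (X : CohSys C ℂ n k) (N : ℕ),
      C.genus = g ∧ X.deg = 2 * n * a ∧ (∀ α : ℝ, 0 < α → X.IsStable α) ∧
      X.h1det = g - n * a ∧ X.localDim = N ∧
      (N : ℤ) = k * (n * (a + 1) - k) - (n ^ 2 - 1) ∧
      beta g n (2 * n * a) k - g + X.h1det * k.choose n - N =
        g * (k.choose n - k * n + n ^ 2 - 1) - n * a * (k.choose n - k) := by
  obtain ⟨p, rfl⟩ := Nat.exists_eq_add_of_le hk.le
  rw [Nat.add_sub_cancel_left] at hka hg2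
  obtain ⟨F, i1, i2, C, X, N, e1, e2, e3, e4, e5, e6⟩ :=
    exists_sys n p a g hn (by omega) hka hg2
  have e7 : (N : ℤ) + (n + p) * (n + p) + n * n = n * ((n + p) * (a + 1)) + 1 := by
    exact_mod_cast e6
  refine ⟨F, i1, i2, C, X, N, e1, e2, e3, e4, e5, ?_, ?_⟩
  · push_cast
    linear_combination e7
  · have e8 : (X.h1det : ℤ) = g - n * a := by
      rw [e4]
      push_cast [Nat.cast_sub hg1]
      ring
    rw [e8, beta]
    push_cast
    linear_combination -e7

theorem choose_ge {n p : ℕ} (hn : 2 ≤ n) (hp : 2 ≤ p) : n * p + 2 ≤ (n + p).choose n := by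
  induction p, hp using Nat.le_induction with
  | base =>
    have h1 : (n + 2).choose n = (n + 2).choose 2 := Nat.choose_symm_add
    have h3 : (n + 2).choose 2 * 2 = (n + 2) * (n + 1) := by
      rw [Nat.choose_two_right]
      have e : n + 2 - 1 = n + 1 := by omega
      have : 2 ∣ (n + 2) * (n + 2 - 1) := even_iff_two_dvd.1 (Nat.even_mul_pred_self (n + 2))
      rw [Nat.div_mul_cancel this, e]
    rw [h1]
    nlinarith
  | succ p hp ih =>
    obtain ⟨q, rfl⟩ : ∃ q, n = q + 1 := ⟨n - 1, by omega⟩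
    have h1 : (q + 1 + (p + 1)).choose (q + 1) =
        (q + 1 + p).choose q + (q + 1 + p).choose (q + 1) := by
      rw [← Nat.choose_succ_succ]
      rfl
    have h2 : (q + 1).choose q ≤ (q + 1 + p).choose q :=
      Nat.choose_le_choose q (Nat.le_add_right _ _)
    rw [Nat.choose_succ_self_right] at h2
    rw [h1]
    nlinarith

theorem exists_D {n p : ℕ} (hn : 2 ≤ n) (hp : 2 ≤ p) : ∃ D : ℕ, 0 < D ∧
    (n + p).choose n = D + n * p + 1 ∧
    (n + 2 * p - 1) * D ≤ n * p * (D + (n - 1) * (p - 1)) := by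
  have h0 := choose_ge hn hp
  obtain ⟨D, hD⟩ : ∃ D, (n + p).choose n = D + n * p + 1 :=
    ⟨(n + p).choose n - (n * p + 1), by omega⟩
  refine ⟨D, by omega, hD, ?_⟩
  rcases Nat.lt_or_ge 2 n with h2 | h2
  · have h3 : n + 2 * p - 1 ≤ n * p := by
      obtain ⟨q, rfl⟩ : ∃ q, n = q + 3 := ⟨n - 3, by omega⟩
      obtain ⟨r, rfl⟩ : ∃ r, p = r + 2 := ⟨p - 2, by omega⟩
      have : q + 3 + 2 * (r + 2) - 1 = q + 2 * r + 6 := by omega
      rw [this]
      nlinarith
    calc (n + 2 * p - 1) * D ≤ n * p * D := Nat.mul_le_mul_right _ h3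
      _ ≤ _ := Nat.mul_le_mul_left _ (Nat.le_add_right _ _)
  · have h3 : n = 2 := le_antisymm h2 hn
    subst h3
    have h4 : (2 + p).choose 2 * 2 = (2 + p) * (1 + p) := by
      rw [Nat.choose_two_right]
      have e : 2 + p - 1 = 1 + p := by omega
      have : 2 ∣ (2 + p) * (2 + p - 1) := even_iff_two_dvd.1 (Nat.even_mul_pred_self (2 + p))
      rw [Nat.div_mul_cancel this, e]
    obtain ⟨r, rfl⟩ : ∃ r, p = r + 2 := ⟨p - 2, by omega⟩
    have e1 : 2 + 2 * (r + 2) - 1 = 2 * r + 5 := by omega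
    have e2 : (2 - 1) * (r + 2 - 1) = r + 1 := by omega
    rw [e1, e2]
    nlinarith

end Pool.Agent.CSQ
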