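import Pool.Agent.Hhelper20.CS.Bound

/-!
# Power series rings in several variables
-/

open Pool.Agent.Hhelper20.CS

namespace Pool.Agent.CSQ

/-- A local ring with residue field `ℂ` whose maximal ideal is generated by `N` elements, of
dimension at least `N`. -/
structure PSR (N : ℕ) where
  R : Type
  [comm : CommRing R]
  [alg : Algebra ℂ R]
  [loc : IsLocalRing R]
  [noeth : IsNoetherianRing R]
  π : R →ₐ[ℂ] ℂ
  t : Fin N → R
  t_mem : ∀ i, t i ∈ IsLocalRing.maximalIdeal R
  decomp : ∀ r : R, ∃ u : Fin N → R, r = algebraMap ℂ R (π r) + ∑ i, t i * u i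
  dim : (N : WithBot ℕ∞) ≤ ringKrullDim R

attribute [instance] PSR.comm PSR.alg PSR.loc PSR.noeth

/-- No variables. -/
noncomputable def psr0 : PSR 0 where
  R := ℂ
  π := AlgHom.id ℂ ℂ
  t := fun i => i.elim0
  t_mem := fun i => i.elim0
  decomp := fun r => ⟨fun i => i.elim0, by simp⟩
  dim := by
    rw [ringKrullDim_eq_zero_of_field]
    rfl

/-- One more variable. -/
noncomputable def psrSucc {N : ℕ} (S : PSR N) : PSR (N + 1) where
  R := PowerSeries S.R
  π := S.π.comp
    { (PowerSeries.constantCoeff (R := S.R)) with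
      commutes' := fun r => by
        change PowerSeries.constantCoeff (algebraMap ℂ (PowerSeries S.R) r) = _
        rw [PowerSeries.algebraMap_apply, PowerSeries.constantCoeff_C] }
  t := Fin.snoc (fun i => PowerSeries.C (S.t i)) PowerSeries.X
  t_mem := by
    intro i
    rw [IsLocalRing.mem_maximalIdeal, mem_nonunits_iff]
    intro hu
    have h1 := hu.map (PowerSeries.constantCoeff (R := S.R))
    refine Fin.lastCases ?_ (fun i => ?_) i (motive := fun i =>
      IsUnit (PowerSeries.constantCoeff (R := S.R) ((Fin.snoc (fun i => PowerSeries.C (S.t i))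
        PowerSeries.X : Fin (N + 1) → PowerSeries S.R) i)) → False) h1
    · rw [Fin.snoc_last, PowerSeries.constantCoeff_X]
      exact not_isUnit_zero
    · rw [Fin.snoc_castSucc, PowerSeries.constantCoeff_C]
      have := S.t_mem i
      rwa [IsLocalRing.mem_maximalIdeal, mem_nonunits_iff] at this
  decomp := by
    intro r
    have h1 := PowerSeries.eq_X_mul_shift_add_const r
    obtain ⟨u, hu⟩ := S.decomp (PowerSeries.constantCoeff r)
    refine ⟨Fin.snoc (fun i => PowerSeries.C (u i))
      (PowerSeries.mk fun p => PowerSeries.coeff (p + 1) r), ?_⟩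
    rw [Fin.sum_univ_castSucc]
    simp only [Fin.snoc_castSucc, Fin.snoc_last]
    have h3 : algebraMap ℂ (PowerSeries S.R) (S.π (PowerSeries.constantCoeff r)) =
        PowerSeries.C (algebraMap ℂ S.R (S.π (PowerSeries.constantCoeff r))) := by
      rw [PowerSeries.algebraMap_apply]
    have h4 := congrArg (PowerSeries.C (R := S.R)) hu
    rw [map_add, map_sum] at h4
    simp only [map_mul] at h4
    change r = algebraMap ℂ (PowerSeries S.R) (S.π (PowerSeries.constantCoeff r)) + _
    rw [h3]
    linear_combination h1 + h4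
  dim := by
    refine le_trans ?_ (ringKrullDim_succ_le_ringKrullDim_powerseries (R := S.R))
    push_cast
    have := S.dim
    gcongr

/-- The power series ring in `N` variables. -/
noncomputable def psr : (N : ℕ) → PSR N
  | 0 => psr0
  | N + 1 => psrSucc (psr N)

/-- Homomorphisms from `R` modulo the square of the maximal ideal are determined by the images of
the variables. -/
theorem psr_hom_ext {N : ℕ} (S : PSR N) {D : Type} [CommRing D] [Algebra ℂ D]
    (f g : (S.R ⧸ IsLocalRing.maximalIdeal S.R ^ (1 + 1)) →ₐ[ℂ] D)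
    (hfg : ∀ i, f (Ideal.Quotient.mk _ (S.t i)) = g (Ideal.Quotient.mk _ (S.t i))) : f = g := by
  apply Ideal.Quotient.algHom_ext
  apply AlgHom.ext
  intro r
  obtain ⟨u, hu⟩ := S.decomp r
  choose v hv using fun i => S.decomp (u i)
  have h2 : ∀ x y z : S.R, x ∈ IsLocalRing.maximalIdeal S.R →
      y ∈ IsLocalRing.maximalIdeal S.R →
      Ideal.Quotient.mk (IsLocalRing.maximalIdeal S.R ^ (1 + 1)) (x * (y * z)) = 0 := by
    intro x y z hx hy
    rw [Ideal.Quotient.eq_zero_iff_mem, show 1 + 1 = 2 from rfl, sq]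
    exact Ideal.mul_mem_mul hx (Ideal.mul_mem_right _ _ hy)
  have h4 : ∀ a : ℂ, Ideal.Quotient.mk (IsLocalRing.maximalIdeal S.R ^ (1 + 1))
    (algebraMap ℂ S.R a) = algebraMap ℂ _ a := fun a => rfl
  have h3 : Ideal.Quotient.mk (IsLocalRing.maximalIdeal S.R ^ (1 + 1)) r =
      algebraMap ℂ _ (S.π r) +
        ∑ i, Ideal.Quotient.mk _ (S.t i) * algebraMap ℂ _ (S.π (u i)) := by
    rw [hu, map_add, map_sum, h4]
    have h5 : S.π (algebraMap ℂ S.R (S.π r) + ∑ i, S.t i * u i) = S.π r := by rw [← hu]
    rw [h5]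
    congr 1
    refine Finset.sum_congr rfl fun i _ => ?_
    rw [hv i, mul_add, map_add, Finset.mul_sum, map_sum, Finset.sum_eq_zero, add_zero, map_mul,
      h4, ← hv i]
    intro j _
    exact h2 _ _ _ (S.t_mem i) (S.t_mem j)
  change f (Ideal.Quotient.mk _ r) = g (Ideal.Quotient.mk _ r)
  rw [h3]
  simp only [map_add, map_sum, map_mul, AlgHom.commutes, hfg]

end Pool.Agent.CSQ
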