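import Pool.Agent.CSQ.Tang
import Pool.Agent.CSQ.Ring

/-!
# The formal family and the lower bound for the local dimension
-/

open Polynomial TensorProduct Pool.Agent.Hhelper20.CS

namespace Pool.Agent.CSQ

variable {F : Type} [Field F] [Algebra ℂ F] {m : ℕ} (h : Hyp F m) {n k a : ℕ}

/-- Elements lying in both charts are constants. -/
theorem eq_const (hm : 0 < m) {z : F} (h0 : z ∈ h.U) (h1 : z ∈ h.swap.U) :
    ∃ c : ℂ, z = algebraMap ℂ F c := by
  have h2 : z ∈ Sp h.lb (Hyp.A0 ∩ Hyp.A1 m (0 : ℕ)) := by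
    rw [Sp_inter h.lb_indep, ← h.toSubmodule_U]
    refine ⟨h0, ?_⟩
    have : z ∈ Sp h.lb (Hyp.A1 m 0) := by
      rw [← h.toSubmodule_swap_U']
      exact h1
    exact this
  obtain ⟨c, hc⟩ := (mem_Sp_inter h hm z).1 h2
  refine ⟨c 0, ?_⟩
  rw [hc, Fin.sum_univ_one, Algebra.algebraMap_eq_smul_one]
  simp

section

variable (q : Ar ℂ n k a) {N : ℕ} (c : Fin N → Ar ℂ n k a)

/-- The array with parameters `t`. -/
noncomputable def Qf {B : Type} [CommRing B] [Algebra ℂ B] (t : Fin N → B) : Ar B n k a :=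
  fun i j d => algebraMap ℂ B (q i j d) + ∑ r, algebraMap ℂ B (c r i j d) * t r

variable {B B' : Type} [CommRing B] [Algebra ℂ B] [CommRing B'] [Algebra ℂ B']

theorem Qf_map (φ : B →ₐ[ℂ] B') (t : Fin N → B) (i : Fin n) (j : Fin k) (d : Fin (a + 1)) :
    φ (Qf q c t i j d) = Qf q c (fun r => φ (t r)) i j d := by
  simp only [Qf, map_add, map_sum, map_mul, AlgHom.commutes]

theorem Qf_zero (t : Fin N → ℂ) (ht : ∀ r, t r = 0) : Qf q c t = q := by
  funext i j d
  simp [Qf, ht]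

theorem Qf_spec {t : Fin N → B} (ht : ∀ (ρ : B →ₐ[ℂ] ℂ) r, ρ (t r) = 0) (ρ : B →ₐ[ℂ] ℂ)
    (i : Fin n) (j : Fin k) (d : Fin (a + 1)) : ρ (Qf q c t i j d) = q i j d := by
  rw [Qf_map, Qf_zero q c _ (ht ρ)]

theorem Qf_tan {ρ : B →ₐ[ℂ] ℂ} {l : B →ₗ[ℂ] ℂ} (hl : IsTan ρ l) (t : Fin N → B)
    (i : Fin n) (j : Fin k) (d : Fin (a + 1)) :
    l (Qf q c t i j d) = ∑ r, l (t r) * c r i j d := by
  have h1 : ∀ z : ℂ, l (algebraMap ℂ B z) = 0 := by
    intro z
    rw [Algebra.algebraMap_eq_smul_one, map_smul, hl.one, smul_zero]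
  rw [Qf, map_add, map_sum, h1, zero_add]
  refine Finset.sum_congr rfl fun r _ => ?_
  rw [← Algebra.smul_def, map_smul, smul_eq_mul, mul_comm]

variable (hm : 0 < m) (hq : LinearIndependent ℂ fun (j : Fin k) (i : Fin n) => L0 h q i j)

theorem mul_L0_eq_zero {M : Matrix (Fin k) (Fin k) ℂ}
    (hq : LinearIndependent ℂ fun (j : Fin k) (i : Fin n) => L0 h q i j)
    (hM : L0 h q * M.map (algebraMap ℂ F) = 0) : M = 0 := by
  ext i j
  have h1 := Fintype.linearIndependent_iff.1 hq (fun i => M i j) (by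
    funext b
    have h2 := congrFun (congrFun hM b) j
    simp only [Matrix.mul_apply, Matrix.map_apply] at h2
    simp only [Finset.sum_apply, Pi.smul_apply, Algebra.smul_def]
    rw [Pi.zero_apply]
    refine Eq.trans ?_ h2
    exact Finset.sum_congr rfl fun i _ => mul_comm _ _)
  exact h1 i

/-- The stabiliser of the space of sections consists of the scalars. -/
def Stab (q : Ar ℂ n k a) : Prop :=
  ∀ (α : Matrix (Fin n) (Fin n) ℂ) (R : Matrix (Fin k) (Fin k) ℂ),
    L0 h q * R.map (algebraMap ℂ F) = α.map (algebraMap ℂ F) * L0 h q → ∃ z : ℂ, α = z • 1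

include hm in
/-- Nearby members of the family are not isomorphic. -/
theorem fam_iso (hst : Stab h q) (hk : 0 < k)
    (hc : ∀ z : Fin N → ℂ, (∑ r, z r • c r) ∈ LinearMap.range (Phi q) → z = 0)
    (ρ : B →ₐ[ℂ] ℂ) (l : B →ₗ[ℂ] ℂ) (hl : IsTan ρ l) (t t' : Fin N → B)
    (ht : ∀ (ρ : B →ₐ[ℂ] ℂ) r, ρ (t r) = 0) (ht' : ∀ (ρ : B →ₐ[ℂ] ℂ) r, ρ (t' r) = 0)
    (hi : CohSys.Iso (fam h hm q hq (Qf q c t) (Qf_spec q c ht))
      (fam h hm q hq (Qf q c t') (Qf_spec q c ht'))) (r : Fin N) : l (t r) = l (t' r) := by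
  obtain ⟨u0, u1, P, g0, g1, hg, hs0, -⟩ := hi
  have hgab : ∀ i b, u0.val i b = u1.val i b := by
    intro i b
    have h1 : (gM h n a B).val * u1.val = u0.val * (gM h n a B).val := hg
    have h2 := congrFun (congrFun h1 i) b
    rw [gM_val, Matrix.diagonal_mul, Matrix.mul_diagonal, mul_comm] at h2
    have h3 : (ux h a B).val = 1 ⊗ₜ (h.x ^ (a : ℤ)) := rfl
    rw [← h3] at h2
    exact ((ux h a B).mul_left_inj.1 h2).symm
  have hα : ∀ i b, ∃ z : ℂ, ev ρ (u0.val i b) = algebraMap ℂ F z := by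
    intro i b
    exact eq_const h hm (ev_mem ρ (g0.1 i b)) (by rw [hgab i b]; exact ev_mem ρ (g1.1 i b))
  have hβ : ∀ i b, ∃ z : ℂ, Dl l (u0.val i b) = algebraMap ℂ F z := by
    intro i b
    exact eq_const h hm (Dl_mem l (g0.1 i b)) (by rw [hgab i b]; exact Dl_mem l (g1.1 i b))
  choose α hα using hα
  choose β hβ using hβ
  have Eα : u0.val.map (ev ρ) = (Matrix.of α).map (algebraMap ℂ F) := by
    ext i b; exact hα i b
  have Eβ : u0.val.map (Dl l) = (Matrix.of β).map (algebraMap ℂ F) := by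
    ext i b; exact hβ i b
  have ES : ∀ (t : Fin N → B) (ht : ∀ (ρ : B →ₐ[ℂ] ℂ) r, ρ (t r) = 0),
      (fam h hm q hq (Qf q c t) (Qf_spec q c ht)).s0.map (ev ρ) = L0 h q := by
    intro t ht
    ext i j
    rw [Matrix.map_apply, fam_s0, map_sum, L0_apply]
    exact Finset.sum_congr rfl fun d _ => by rw [ev_tmul, Qf_spec q c ht]
  have ED : ∀ (t : Fin N → B) (ht : ∀ (ρ : B →ₐ[ℂ] ℂ) r, ρ (t r) = 0),
      (fam h hm q hq (Qf q c t) (Qf_spec q c ht)).s0.map (Dl l) =
        L0 h (∑ r, l (t r) • c r) := by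
    intro t ht
    ext i j
    rw [Matrix.map_apply, fam_s0, map_sum, L0_apply]
    refine Finset.sum_congr rfl fun d _ => ?_
    rw [Dl_tmul, Qf_tan q c hl]
    congr 1
    simp only [Finset.sum_apply, Pi.smul_apply, smul_eq_mul]
  let P0 : Matrix (Fin k) (Fin k) ℂ := P.val.map ρ
  let P1 : Matrix (Fin k) (Fin k) ℂ := P.val.map l
  let R : Matrix (Fin k) (Fin k) ℂ := (P⁻¹).val.map ρ
  have hPR : P0 * R = 1 := by
    have h1 := congrArg (fun M : Matrix _ _ _ => M.map ρ) (P.mul_inv)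
    simp only [Matrix.map_mul, Matrix.map_one _ (map_zero ρ) (map_one ρ)] at h1
    exact h1
  have EP0 : (P.val.map (inL F B)).map (ev ρ) = P0.map (algebraMap ℂ F) := by
    ext i j
    exact ev_inL ρ _
  have EP1 : (P.val.map (inL F B)).map (Dl l) = P1.map (algebraMap ℂ F) := by
    ext i j
    exact Dl_inL l _
  -- zeroth order
  have Z0 := congrArg (fun M : Matrix _ _ _ => M.map (ev ρ)) hs0
  simp only [Matrix.map_mul] at Z0
  rw [ES _ ht', ES _ ht, Eα, EP0] at Z0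
  -- first order
  have Z1 := congrArg (fun M : Matrix _ _ _ => M.map (Dl l)) hs0
  simp only [map_Dl_mul hl, Matrix.map_mul] at Z1
  rw [ED _ ht', ED _ ht, ES _ ht, Eα, Eβ, EP0, EP1] at Z1
  have hPR' : P0.map (algebraMap ℂ F) * R.map (algebraMap ℂ F) = 1 := by
    rw [← Matrix.map_mul, hPR, Matrix.map_one _ (map_zero _) (map_one _)]
  have Z0' : L0 h q * R.map (algebraMap ℂ F) = (Matrix.of α).map (algebraMap ℂ F) * L0 h q := by
    conv_lhs => rw [Z0]
    rw [Matrix.mul_assoc, hPR', Matrix.mul_one]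
  obtain ⟨z, hz⟩ := hst _ _ Z0'
  have hsc : ∀ {p q : ℕ} (w : ℂ) (M : Matrix (Fin p) (Fin q) F),
      (w • (1 : Matrix (Fin p) (Fin p) ℂ)).map (algebraMap ℂ F) * M = algebraMap ℂ F w • M := by
    intro p q w M
    have h1 : (w • (1 : Matrix (Fin p) (Fin p) ℂ)).map (algebraMap ℂ F) =
        algebraMap ℂ F w • (1 : Matrix (Fin p) (Fin p) F) := by
      ext i j
      by_cases hij : i = j
      · simp [hij]
      · simp [hij]
    rw [h1, Matrix.smul_mul, Matrix.one_mul]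
  have hsc' : ∀ {p q : ℕ} (w : ℂ) (M : Matrix (Fin p) (Fin q) F),
      M * (w • (1 : Matrix (Fin q) (Fin q) ℂ)).map (algebraMap ℂ F) = algebraMap ℂ F w • M := by
    intro p q w M
    have h1 : (w • (1 : Matrix (Fin q) (Fin q) ℂ)).map (algebraMap ℂ F) =
        algebraMap ℂ F w • (1 : Matrix (Fin q) (Fin q) F) := by
      ext i j
      by_cases hij : i = j
      · simp [hij]
      · simp [hij]
    rw [h1, Matrix.mul_smul, Matrix.mul_one]
  have hR : R = z • (1 : Matrix (Fin k) (Fin k) ℂ) := by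
    have h1 : L0 h q * (R - z • (1 : Matrix (Fin k) (Fin k) ℂ)).map (algebraMap ℂ F) = 0 := by
      have h2 : (R - z • (1 : Matrix (Fin k) (Fin k) ℂ)).map (algebraMap ℂ F) =
          R.map (algebraMap ℂ F) - (z • (1 : Matrix (Fin k) (Fin k) ℂ)).map (algebraMap ℂ F) := by
        ext i j
        simp only [Matrix.map_apply, Matrix.sub_apply, map_sub]
      rw [h2, Matrix.mul_sub, Z0', hz, hsc, hsc', sub_self]
    exact sub_eq_zero.1 (mul_L0_eq_zero h q hq h1)
  have hz0 : z ≠ 0 := by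
    intro h0
    rw [h0, zero_smul] at hR
    rw [hR, Matrix.mul_zero] at hPR
    have := congrFun (congrFun hPR ⟨0, hk⟩) ⟨0, hk⟩
    simp at this
  have hP0 : P0 = z⁻¹ • (1 : Matrix (Fin k) (Fin k) ℂ) := by
    rw [hR, Matrix.mul_smul, Matrix.mul_one] at hPR
    rw [← hPR, smul_smul, inv_mul_cancel₀ hz0, one_smul]
  have hz' : algebraMap ℂ F z ≠ 0 := by
    rw [Ne, map_eq_zero]
    exact hz0
  rw [hz, hP0, hsc, hsc, hsc', smul_add, smul_smul, ← map_mul, inv_mul_cancel₀ hz0, map_one,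
    one_smul] at Z1
  have Z2 : L0 h (∑ r, l (t' r) • c r - ∑ r, l (t r) • c r) =
      L0 h (Phi q (z • P1, z⁻¹ • Matrix.of β)) := by
    rw [map_sub, Z1, L0_Phi]
    have e1 : (z • P1).map (algebraMap ℂ F) = algebraMap ℂ F z • P1.map (algebraMap ℂ F) := by
      ext i j
      simp
    have e2 : (z⁻¹ • Matrix.of β).map (algebraMap ℂ F) =
        algebraMap ℂ F z⁻¹ • (Matrix.of β).map (algebraMap ℂ F) := by
      ext i j
      simp
    rw [e1, e2, Matrix.mul_smul, Matrix.smul_mul, Matrix.smul_mul]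
    abel
  have Z3 := L0_injective h Z2
  have Z4 : ∑ r, (fun r => l (t' r) - l (t r)) r • c r =
      ∑ r, l (t' r) • c r - ∑ r, l (t r) • c r := by
    rw [← Finset.sum_sub_distrib]
    exact Finset.sum_congr rfl fun r _ => sub_smul _ _ _
  have Z5 := hc (fun r => l (t' r) - l (t r)) (by rw [Z4, Z3]; exact ⟨_, rfl⟩)
  exact (sub_eq_zero.1 (congrFun Z5 r)).symm

theorem mk_spec (S : PSR N) (j : ℕ)
    (ρ : (S.R ⧸ IsLocalRing.maximalIdeal S.R ^ (j + 1)) →ₐ[ℂ] ℂ) (r : Fin N) :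
    ρ (Ideal.Quotient.mk (IsLocalRing.maximalIdeal S.R ^ (j + 1)) (S.t r)) = 0 :=
  algHom_eq_zero (ρ.comp (Ideal.Quotient.mkₐ ℂ _)) (S.t_mem r)

theorem mk_spec' (S : PSR N) (j : ℕ)
    (φ : (S.R ⧸ IsLocalRing.maximalIdeal S.R ^ (j + 1)) →ₐ[ℂ] B') (ρ : B' →ₐ[ℂ] ℂ) (r : Fin N) :
    ρ (φ (Ideal.Quotient.mk (IsLocalRing.maximalIdeal S.R ^ (j + 1)) (S.t r))) = 0 :=
  mk_spec S j (ρ.comp φ) r

/-- The family over `R / m ^ (j + 1)`. -/
noncomputable def famS (S : PSR N) (j : ℕ) :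
    CohSys (h.curve hm) (S.R ⧸ IsLocalRing.maximalIdeal S.R ^ (j + 1)) n k :=
  fam h hm q hq (Qf q c fun r => Ideal.Quotient.mk _ (S.t r)) (Qf_spec q c (mk_spec S j))

theorem famS_map (S : PSR N) (j : ℕ)
    (φ : (S.R ⧸ IsLocalRing.maximalIdeal S.R ^ (j + 1)) →ₐ[ℂ] B') :
    (famS h q c hm hq S j).map φ = fam h hm q hq
      (Qf q c fun r => φ (Ideal.Quotient.mk _ (S.t r))) (Qf_spec q c (mk_spec' S j φ)) := by
  unfold famS
  rw [fam_map]
  apply fam_congr
  funext i i' d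
  exact Qf_map q c φ _ i i' d

/-- The unramified formal family over the power series ring. -/
noncomputable def formalFamily (hst : Stab h q) (hk : 0 < k)
    (hc : ∀ z : Fin N → ℂ, (∑ r, z r • c r) ∈ LinearMap.range (Phi q) → z = 0)
    (S : PSR N) : CohSys.FormalFamily (sys h hm q hq) S.R where
  fam := fun j => famS h q c hm hq S j
  det := fun j => fam_det h hm q hq _ _
  compat := by
    intro j
    refine ⟨_, (CohSys.isPullback_iff _ _ _).2 rfl, ?_⟩
    have h1 : (famS h q c hm hq S (j + 1)).map (CohSys.trunc S.R j) = famS h q c hm hq S j :=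
      famS_map h q c hm hq S (j + 1) (CohSys.trunc S.R j)
    rw [h1]
    exact CohSys.Iso.refl _
  special := by
    intro ρ
    refine ⟨_, (CohSys.isPullback_iff _ _ _).2 rfl, ?_⟩
    have h1 : (famS h q c hm hq S 0).map ρ = sys h hm q hq := by
      rw [famS_map h q c hm hq S 0 ρ]
      apply fam_congr
      exact Qf_zero q c _ (mk_spec S 0 ρ)
    rw [h1]
    exact CohSys.Iso.refl _
  unramified := by
    rintro f g ⟨Y, Y', hY, hY', hi⟩
    rw [CohSys.isPullback_iff] at hY hY'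
    let ρ : DualNumber ℂ →ₐ[ℂ] ℂ := TrivSqZeroExt.fstHom ℂ ℂ ℂ
    let l : DualNumber ℂ →ₗ[ℂ] ℂ := TrivSqZeroExt.sndHom ℂ ℂ
    have hl : IsTan ρ l := by
      intro a b
      change (a * b).snd = a.fst * b.snd + a.snd * b.fst
      rw [TrivSqZeroExt.snd_mul]
      simp
    rw [hY, hY', famS_map h q c hm hq S 1 f, famS_map h q c hm hq S 1 g] at hi
    have h2 := fam_iso h q c hm hq hst hk hc ρ l hl _ _ (mk_spec' S 1 f) (mk_spec' S 1 g) hi
    apply psr_hom_ext
    intro r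
    exact TrivSqZeroExt.ext ((mk_spec' S 1 f ρ r).trans (mk_spec' S 1 g ρ r).symm) (h2 r)

theorem le_localDim (hst : Stab h q) (hk : 0 < k)
    (hc : ∀ z : Fin N → ℂ, (∑ r, z r • c r) ∈ LinearMap.range (Phi q) → z = 0) :
    (N : WithBot ℕ∞) ≤ (sys h hm q hq).localDim := by
  refine (psr N).dim.trans ?_
  unfold CohSys.localDim
  exact le_iSup_of_le (psr N).R (le_iSup_of_le inferInstance (le_iSup_of_le inferInstance
    (le_iSup_of_le inferInstance (le_iSup_of_le inferInstance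
      (le_iSup_of_le ⟨(psr N).π⟩ (le_iSup_of_le ⟨formalFamily h q c hm hq hst hk hc (psr N)⟩
        le_rfl))))))

end

/-- The local dimension is the codimension of the infinitesimal changes of basis. -/
theorem localDim_eq (hm : 0 < m) (ham : a < m) (hk : 0 < k) (q : Ar ℂ n k a)
    (hq : LinearIndependent ℂ fun (j : Fin k) (i : Fin n) => L0 h q i j) (hr : Rigid h q)
    (hst : Stab h q) {N : ℕ} (hN : Module.finrank ℂ (LinearMap.range (Phi q)) + N =
      Module.finrank ℂ (Ar ℂ n k a)) : (sys h hm q hq).localDim = N := by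
  refine le_antisymm (localDim_le h hm ham q hq hr hN) ?_
  obtain ⟨T, hT⟩ := (LinearMap.range (Phi q)).exists_isCompl
  have hTN : Module.finrank ℂ T = N := by
    have := Submodule.finrank_add_eq_of_isCompl hT
    omega
  let b := (Module.finBasis ℂ T).reindex (finCongr hTN)
  refine le_localDim h q (fun r => (b r : Ar ℂ n k a)) hm hq hst hk ?_
  intro z hz
  have h1 : ∑ r, z r • (b r : Ar ℂ n k a) ∈ T :=
    Submodule.sum_mem _ fun r _ => T.smul_mem _ (b r).2
  have h2 : ∑ r, z r • (b r : Ar ℂ n k a) = 0 := by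
    have := hT.disjoint
    rw [Submodule.disjoint_def] at this
    exact this _ hz h1
  have h3 : ∑ r, z r • b r = 0 := by
    apply Subtype.ext
    refine Eq.trans ?_ h2
    simp
  funext r
  exact Fintype.linearIndependent_iff.1 b.linearIndependent z h3 r

end Pool.Agent.CSQ
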