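import Pool.Agent.CSQ.Sparse

/-!
# General position of the columns of `binom(p, j - i) * X ^ (t j - t i)`
-/

open Polynomial

namespace Pool.Agent.CSQ

/-- The entries `binom(p, j - i) X ^ (t j - t i)`. -/
noncomputable def qP (p : ℕ) (t : ℕ → ℕ) (i j : ℕ) : ℂ[X] :=
  if i ≤ j then C (p.choose (j - i) : ℂ) * X ^ (t j - t i) else 0

/-- For a nonzero row of polynomials there are fewer than `n` columns such that every combination
of the columns annihilated by the row and not involving these columns is trivial. -/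
theorem exists_few (n p : ℕ) {t : ℕ → ℕ} (ht : StrictMono t) (A : Fin n → ℂ[X]) (hA : A ≠ 0) :
    ∃ Z : Finset (Fin (n + p)), Z.card < n ∧ ∀ lam : Fin (n + p) → ℂ, (∀ j ∈ Z, lam j = 0) →
      (∑ j : Fin (n + p), C (lam j) * ∑ i : Fin n, A i * qP p t i j) = 0 → lam = 0 := by
  classical
  -- shifted entries
  let A' : Fin n → ℂ[X] := fun i => X ^ (t n - t i) * A i
  obtain ⟨i1, hi1⟩ : ∃ i, A i ≠ 0 := by
    by_contra h
    push Not at h
    exact hA (funext h)
  have hXA : ∀ i, A i ≠ 0 → A' i ≠ 0 := fun i hi => mul_ne_zero (pow_ne_zero _ X_ne_zero) hi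
  obtain ⟨i0, hi0, hmax⟩ := Finset.exists_max_image (Finset.univ.filter fun i => A' i ≠ 0)
    (fun i => (A' i).natDegree) ⟨i1, Finset.mem_filter.2 ⟨Finset.mem_univ _, hXA i1 hi1⟩⟩
  rw [Finset.mem_filter] at hi0
  set E := (A' i0).natDegree with hE
  have hdeg : ∀ i, (A' i).natDegree ≤ E := by
    intro i
    by_cases h : A' i = 0
    · rw [h, natDegree_zero]
      exact Nat.zero_le _
    · exact hmax i (Finset.mem_filter.2 ⟨Finset.mem_univ _, h⟩)
  -- the leading polynomial
  let a : ℂ[X] := ∑ i : Fin n, C ((A' i).coeff E) * X ^ (i : ℕ)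
  have ha : ∀ i : Fin n, a.coeff i = (A' i).coeff E := by
    intro i
    simp only [a, finsetSum_coeff, coeff_C_mul, coeff_X_pow]
    rw [Finset.sum_eq_single i]
    · simp
    · intro b _ hb
      rw [if_neg (fun h => hb (Fin.ext h.symm)), mul_zero]
    · intro h
      exact absurd (Finset.mem_univ _) h
  have hn : 0 < n := lt_of_le_of_lt (Nat.zero_le _) i0.2
  have had : a.natDegree < n := by
    refine lt_of_le_of_lt (natDegree_sum_le_of_forall_le (n := n - 1) _ _ ?_) (by omega)
    intro i _
    refine (natDegree_C_mul_X_pow_le _ _).trans ?_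
    omega
  have ha0 : a ≠ 0 := by
    intro h
    have h1 := ha i0
    rw [h, coeff_zero] at h1
    exact hi0.2 (leadingCoeff_eq_zero.1 h1.symm)
  -- the columns
  let P : ℂ[X] := a * (1 + X) ^ p
  have hP0 : P ≠ 0 := mul_ne_zero ha0 (pow_ne_zero _ (by
    intro h
    have := congrArg (eval (0 : ℂ)) h
    simp at this))
  have hcard : p < P.support.card := lt_card_support p P hP0 ⟨a, mul_comm _ _⟩
  have hPdeg : P.natDegree < n + p := by
    refine lt_of_le_of_lt natDegree_mul_le ?_
    have h1 : ((1 + X : ℂ[X]) ^ p).natDegree ≤ p := by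
      refine natDegree_pow_le.trans ?_
      have : (1 + X : ℂ[X]).natDegree ≤ 1 := by
        refine (natDegree_add_le _ _).trans ?_
        simp
      calc p * (1 + X : ℂ[X]).natDegree ≤ p * 1 := Nat.mul_le_mul_left _ this
        _ = p := mul_one _
    omega
  let Z : Finset (Fin (n + p)) := Finset.univ.filter fun j => P.coeff j = 0
  let H : Fin (n + p) → ℂ[X] := fun j => ∑ i : Fin n,
    if (i : ℕ) ≤ j then A' i * C (p.choose (j - i) : ℂ) else 0
  have hH : ∀ j, (H j).coeff E = P.coeff j := by
    intro j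
    simp only [H, P]
    rw [coeff_mul_binom p a n had j, finsetSum_coeff]
    refine Finset.sum_congr rfl fun i _ => ?_
    split_ifs with hij
    · rw [coeff_mul_C, ha]
    · exact coeff_zero _
  have hHdeg : ∀ j, (H j).natDegree ≤ E := by
    intro j
    refine natDegree_sum_le_of_forall_le _ _ ?_
    intro i _
    split_ifs with hij
    · exact (natDegree_mul_C_le _ _).trans (hdeg i)
    · rw [natDegree_zero]; exact Nat.zero_le _
  have hHX : ∀ j : Fin (n + p), X ^ (t n) * (∑ i : Fin n, A i * qP p t i j) =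
      X ^ (t j) * H j := by
    intro j
    rw [Finset.mul_sum, Finset.mul_sum]
    refine Finset.sum_congr rfl fun i _ => ?_
    unfold qP
    split_ifs with hij
    · have e1 : t n + (t j - t i) = t j + (t n - t i) := by
        have e2 : t i ≤ t j := ht.monotone hij
        have e3 : t i ≤ t n := ht.monotone i.2.le
        omega
      calc X ^ (t n) * (A i * (C (p.choose (j - i) : ℂ) * X ^ (t j - t i))) =
          X ^ (t n + (t j - t i)) * (A i * C (p.choose (j - i) : ℂ)) := by
            rw [pow_add]; ring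
        _ = _ := by rw [e1, pow_add]; ring
    · rw [mul_zero, mul_zero, mul_zero]
  refine ⟨Z, ?_, ?_⟩
  · -- counting
    have h1 : P.support.card ≤ (Finset.univ.filter fun j : Fin (n + p) => P.coeff j ≠ 0).card := by
      refine Finset.card_le_card_of_surjOn (fun j : Fin (n + p) => (j : ℕ)) ?_
      intro d hd
      have hd' : P.coeff d ≠ 0 := mem_support_iff.1 hd
      have hdn : d < n + p := lt_of_le_of_lt (le_natDegree_of_ne_zero hd') hPdeg
      exact ⟨⟨d, hdn⟩, Finset.mem_coe.2 (Finset.mem_filter.2 ⟨Finset.mem_univ _, hd'⟩), rfl⟩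
    have h2 := Finset.card_filter_add_card_filter_not (s := (Finset.univ : Finset (Fin (n + p))))
      (fun j => P.coeff j = 0)
    rw [Finset.card_univ, Fintype.card_fin] at h2
    change Z.card + (Finset.univ.filter fun j : Fin (n + p) => P.coeff j ≠ 0).card = n + p at h2
    omega
  · intro lam hlam hsum
    by_contra hne
    obtain ⟨j1, hj1⟩ : ∃ j, lam j ≠ 0 := by
      by_contra h
      push Not at h
      exact hne (funext h)
    obtain ⟨j0, hj0, hj0max⟩ := Finset.exists_max_image
      (Finset.univ.filter fun j : Fin (n + p) => lam j ≠ 0) (fun j => (j : ℕ))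
      ⟨j1, Finset.mem_filter.2 ⟨Finset.mem_univ _, hj1⟩⟩
    rw [Finset.mem_filter] at hj0
    have hj0Z : P.coeff j0 ≠ 0 := by
      intro h
      exact hj0.2 (hlam j0 (Finset.mem_filter.2 ⟨Finset.mem_univ _, h⟩))
    have h1 : (∑ j : Fin (n + p), C (lam j) * (X ^ (t j) * H j)) = 0 := by
      have h2 := congrArg (fun z => X ^ (t n) * z) hsum
      simp only [mul_zero, Finset.mul_sum] at h2
      rw [← h2]
      refine Finset.sum_congr rfl fun j _ => ?_
      rw [← hHX j, Finset.mul_sum, Finset.mul_sum]
      refine Finset.sum_congr rfl fun i _ => ?_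
      ring
    have h2 := congrArg (fun z : ℂ[X] => z.coeff (t j0 + E)) h1
    simp only [finsetSum_coeff, coeff_C_mul, coeff_zero] at h2
    rw [Finset.sum_eq_single j0] at h2
    · rw [add_comm (t j0) E, coeff_X_pow_mul, hH] at h2
      exact mul_ne_zero hj0.2 hj0Z h2
    · intro j _ hj
      by_cases hl : lam j = 0
      · rw [hl, zero_mul]
      · have hle := hj0max j (Finset.mem_filter.2 ⟨Finset.mem_univ _, hl⟩)
        have hlt : (j : ℕ) < j0 := lt_of_le_of_ne hle fun e => hj (Fin.ext e)
        rw [coeff_eq_zero_of_natDegree_lt, mul_zero]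
        refine lt_of_le_of_lt natDegree_mul_le ?_
        rw [natDegree_X_pow]
        have h3 : t j < t j0 := ht hlt
        have := hHdeg j
        omega
    · intro h
      exact absurd (Finset.mem_univ _) h

end Pool.Agent.CSQ
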