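import Pool.Agent.CSQ.Formal

/-!
# General position: consequences for stability and stabilisers
-/

open Polynomial TensorProduct Pool.Agent.Hhelper20.CS

namespace Pool.Agent.CSQ

variable {F : Type} [Field F] [Algebra ℂ F] {m : ℕ} (h : Hyp F m) {n k a : ℕ}

theorem map_smul_one (p : ℕ) (z : ℂ) :
    (z • (1 : Matrix (Fin p) (Fin p) ℂ)).map (algebraMap ℂ F) =
      algebraMap ℂ F z • (1 : Matrix (Fin p) (Fin p) F) := by
  ext i j
  by_cases hij : i = j
  · simp only [hij, Matrix.map_apply, Matrix.smul_apply, Matrix.one_apply_eq, smul_eq_mul, mul_one]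
  · simp [hij]

theorem map_sub' {p r : ℕ} (M N : Matrix (Fin p) (Fin r) ℂ) :
    (M - N).map (algebraMap ℂ F) = M.map (algebraMap ℂ F) - N.map (algebraMap ℂ F) := by
  ext i j
  simp only [Matrix.map_apply, Matrix.sub_apply, map_sub]

/-- The sections with given coordinates. -/
noncomputable def iot (q : Ar ℂ n k a) : (Fin k → ℂ) →ₗ[ℂ] (Fin n → F) :=
  Fintype.linearCombination ℂ (fun (j : Fin k) (i : Fin n) => L0 h q i j)

theorem iot_apply (q : Ar ℂ n k a) (z : Fin k → ℂ) :
    iot h q z = (L0 h q).mulVec (fun j => algebraMap ℂ F (z j)) := by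
  rw [← CohSys.sum_smul_col]
  rfl

/-- The coordinates of the sections lying in `S`. -/
noncomputable def KS (q : Ar ℂ n k a) (S : Submodule F (Fin n → F)) : Submodule ℂ (Fin k → ℂ) :=
  (S.restrictScalars ℂ).comap (iot h q)

theorem mem_KS (q : Ar ℂ n k a) (S : Submodule F (Fin n → F)) (z : Fin k → ℂ) :
    z ∈ KS h q S ↔ iot h q z ∈ S := Iff.rfl

/-- Every proper subspace `S` of the generic fibre contains at most `dim S` independent
sections. -/
def GenPos (q : Ar ℂ n k a) : Prop :=
  ∀ S : Submodule F (Fin n → F), S ≠ ⊤ → Module.finrank ℂ (KS h q S) ≤ Module.finrank F S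

/-- Every hyperplane of the generic fibre contains fewer than `n` independent sections. -/
def HypPos (q : Ar ℂ n k a) : Prop :=
  ∀ f : Module.Dual F (Fin n → F), f ≠ 0 → Module.finrank ℂ (KS h q (LinearMap.ker f)) < n

omit [Algebra ℂ F] in
theorem finrank_lt {S : Submodule F (Fin n → F)} (hS : S ≠ ⊤) : Module.finrank F S < n := by
  have := Submodule.finrank_lt hS
  rwa [Module.finrank_fintype_fun_eq_card, Fintype.card_fin] at this

theorem genPos_of_hypPos {q : Ar ℂ n k a} (hq : HypPos h q) (hnk : n ≤ k) : GenPos h q := by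
  have key : ∀ (d : ℕ) (S : Submodule F (Fin n → F)), Module.finrank F S + d + 1 = n →
      Module.finrank ℂ (KS h q S) ≤ Module.finrank F S := by
    intro d
    induction d with
    | zero =>
      intro S hS
      have hlt : S < ⊤ := by
        rw [lt_top_iff_ne_top]
        rintro rfl
        rw [finrank_top, Module.finrank_fintype_fun_eq_card, Fintype.card_fin] at hS
        omega
      obtain ⟨f, hf, hle⟩ := Submodule.exists_le_ker_of_lt_top S hlt
      have h1 := hq f hf
      have h2 : Module.finrank ℂ (KS h q S) ≤ Module.finrank ℂ (KS h q (LinearMap.ker f)) :=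
        Submodule.finrank_mono fun z hz => hle hz
      omega
    | succ d ih =>
      intro S hS
      have hlt : S < ⊤ := by
        rw [lt_top_iff_ne_top]
        rintro rfl
        rw [finrank_top, Module.finrank_fintype_fun_eq_card, Fintype.card_fin] at hS
        omega
      obtain ⟨f, hf, hle⟩ := Submodule.exists_le_ker_of_lt_top S hlt
      obtain ⟨z, hz⟩ : ∃ z, iot h q z ∉ S := by
        by_contra hcon
        push Not at hcon
        have h1 := hq f hf
        have h2 : KS h q (LinearMap.ker f) = ⊤ := by
          rw [eq_top_iff]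
          intro z _
          exact hle (hcon z)
        rw [h2, finrank_top, Module.finrank_fintype_fun_eq_card, Fintype.card_fin] at h1
        omega
      have h3 : Module.finrank F ↥(S ⊔ Submodule.span F {iot h q z}) = Module.finrank F S + 1 :=
        Submodule.finrank_sup_span_singleton hz
      have h4 := ih (S ⊔ Submodule.span F {iot h q z}) (by rw [h3]; omega)
      have hzS : z ∉ KS h q S := hz
      have h5 : Module.finrank ℂ ↥(KS h q S ⊔ Submodule.span ℂ {z}) =
          Module.finrank ℂ (KS h q S) + 1 := Submodule.finrank_sup_span_singleton hzS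
      have h6 : KS h q S ⊔ Submodule.span ℂ {z} ≤
          KS h q (S ⊔ Submodule.span F {iot h q z}) := by
        refine sup_le ?_ ?_
        · intro w hw
          exact Submodule.mem_sup_left hw
        · rw [Submodule.span_singleton_le_iff_mem]
          exact Submodule.mem_sup_right (Submodule.mem_span_singleton_self _)
      have h7 := Submodule.finrank_mono h6
      omega
  intro S hS
  have h1 := finrank_lt hS
  exact key (n - 1 - Module.finrank F S) S (by omega)

theorem iot_injective {q : Ar ℂ n k a} (hq : GenPos h q) (hn : 0 < n) :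
    Function.Injective (iot h q) := by
  have hne : (⊥ : Submodule F (Fin n → F)) ≠ ⊤ := by
    intro e
    have h1 := congrArg (fun S : Submodule F (Fin n → F) => Module.finrank F S) e
    simp only [finrank_bot, finrank_top, Module.finrank_fintype_fun_eq_card,
      Fintype.card_fin] at h1
    omega
  have h1 := hq ⊥ hne
  rw [finrank_bot, Nat.le_zero, Submodule.finrank_eq_zero] at h1
  rw [← LinearMap.ker_eq_bot, eq_bot_iff, ← h1]
  intro z hz
  rw [mem_KS, Submodule.mem_bot]
  exact hz

theorem indep_of_genPos {q : Ar ℂ n k a} (hq : GenPos h q) (hn : 0 < n) :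
    LinearIndependent ℂ fun (j : Fin k) (i : Fin n) => L0 h q i j := by
  rw [Fintype.linearIndependent_iff]
  intro c hc
  have h1 : iot h q c = 0 := hc
  have h2 : c = 0 := iot_injective h hq hn (by rw [h1, map_zero])
  intro i
  rw [h2]
  rfl

/-- In general position the stabiliser of the space of sections consists of the scalars. -/
theorem stab_of_genPos {q : Ar ℂ n k a} (hq : GenPos h q) (hn : 0 < n) (hnk : n < k) :
    Stab h q := by
  intro α R hR
  have : Nonempty (Fin n) := ⟨⟨0, hn⟩⟩
  have : Nontrivial (Fin n → ℂ) := inferInstance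
  obtain ⟨z, hz⟩ := Module.End.exists_eigenvalue (Matrix.toLin' α)
  obtain ⟨v, hv⟩ := hz.exists_hasEigenvector
  refine ⟨z, ?_⟩
  by_contra hne
  let γ : Matrix (Fin n) (Fin n) ℂ := α - z • 1
  have hγ : γ ≠ 0 := sub_ne_zero.2 hne
  let Γ : (Fin n → F) →ₗ[F] (Fin n → F) := Matrix.mulVecLin (γ.map (algebraMap ℂ F))
  have hv0 : (γ.mulVec v) = 0 := by
    have h1 := hv.apply_eq_smul
    rw [Matrix.toLin'_apply] at h1
    simp only [γ]
    rw [Matrix.sub_mulVec, h1, Matrix.smul_mulVec, Matrix.one_mulVec, sub_self]
  have hS1 : LinearMap.ker Γ ≠ ⊤ := by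
    intro e
    apply hγ
    ext i j
    have h1 : Γ (Pi.single j 1) = 0 := by
      have : Pi.single j (1 : F) ∈ LinearMap.ker Γ := by rw [e]; trivial
      exact this
    have h2 := congrFun h1 i
    simp only [Γ, Matrix.mulVecLin_apply, Matrix.mulVec_single_one, Matrix.col_apply,
      Matrix.map_apply, Pi.zero_apply] at h2
    rwa [map_eq_zero] at h2
  have hS2 : LinearMap.range Γ ≠ ⊤ := by
    intro e
    have h1 : LinearMap.ker Γ = ⊥ := by
      have h2 := Γ.finrank_range_add_finrank_ker
      rw [e, finrank_top] at h2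
      have h3 : Module.finrank F (LinearMap.ker Γ) = 0 := by omega
      exact Submodule.finrank_eq_zero.1 h3
    have h2 : (fun i => algebraMap ℂ F (v i)) ∈ LinearMap.ker Γ := by
      rw [LinearMap.mem_ker]
      funext i
      simp only [Γ, Matrix.mulVecLin_apply, Matrix.mulVec, dotProduct, Matrix.map_apply,
        Pi.zero_apply]
      have h3 := congrFun hv0 i
      simp only [Matrix.mulVec, dotProduct, Pi.zero_apply] at h3
      rw [← map_zero (algebraMap ℂ F), ← h3, map_sum]
      exact Finset.sum_congr rfl fun j _ => (map_mul _ _ _).symm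
    rw [h1, Submodule.mem_bot] at h2
    apply hv.2
    funext i
    have h3 := congrFun h2 i
    simp only [Pi.zero_apply] at h3
    rwa [map_eq_zero] at h3
  have h1 := hq _ hS1
  have h2 := hq _ hS2
  have h3 := Γ.finrank_range_add_finrank_ker
  rw [Module.finrank_fintype_fun_eq_card, Fintype.card_fin] at h3
  let T : (Fin k → ℂ) →ₗ[ℂ] (Fin k → ℂ) := Matrix.mulVecLin (R - z • 1)
  have hT : ∀ w, iot h q (T w) = Γ (iot h q w) := by
    intro w
    have e1 : (fun j => algebraMap ℂ F (T w j)) =
        ((R - z • 1).map (algebraMap ℂ F)).mulVec (fun j => algebraMap ℂ F (w j)) := by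
      funext j
      simp only [T, Matrix.mulVecLin_apply, Matrix.mulVec, dotProduct, map_sum, map_mul,
        Matrix.map_apply]
    rw [iot_apply, iot_apply, e1]
    simp only [Γ, Matrix.mulVecLin_apply]
    rw [Matrix.mulVec_mulVec, Matrix.mulVec_mulVec]
    congr 1
    have e2 : (R - z • 1).map (algebraMap ℂ F) =
        R.map (algebraMap ℂ F) - algebraMap ℂ F z • (1 : Matrix (Fin k) (Fin k) F) := by
      rw [map_sub', map_smul_one]
    have e3 : γ.map (algebraMap ℂ F) =
        α.map (algebraMap ℂ F) - algebraMap ℂ F z • (1 : Matrix (Fin n) (Fin n) F) := by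
      rw [map_sub', map_smul_one]
    rw [e2, e3, Matrix.mul_sub, Matrix.sub_mul, hR, Matrix.mul_smul, Matrix.smul_mul,
      Matrix.mul_one, Matrix.one_mul]
  have h4 := T.finrank_range_add_finrank_ker
  rw [Module.finrank_fintype_fun_eq_card, Fintype.card_fin] at h4
  have h5 : LinearMap.range T ≤ KS h q (LinearMap.range Γ) := by
    rintro _ ⟨w, rfl⟩
    rw [mem_KS, hT]
    exact ⟨_, rfl⟩
  have h6 : LinearMap.ker T ≤ KS h q (LinearMap.ker Γ) := by
    intro w hw
    rw [LinearMap.mem_ker] at hw
    rw [mem_KS, LinearMap.mem_ker, ← hT, hw, map_zero]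
  have h7 := Submodule.finrank_mono h5
  have h8 := Submodule.finrank_mono h6
  omega

theorem finrank_Ar (n k a : ℕ) : Module.finrank ℂ (Ar ℂ n k a) = n * (k * (a + 1)) := by
  unfold Ar
  rw [Module.finrank_pi_fintype]
  simp only [Module.finrank_pi_fintype, Module.finrank_fintype_fun_eq_card, Fintype.card_fin,
    Finset.sum_const, Finset.card_univ, smul_eq_mul]
  simp

/-- The dimension of the space of infinitesimal changes of basis. -/
theorem finrank_range_Phi {q : Ar ℂ n k a} (hn : 0 < n)
    (hq : LinearIndependent ℂ fun (j : Fin k) (i : Fin n) => L0 h q i j)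
    (hst : Stab h q) : Module.finrank ℂ (LinearMap.range (Phi q)) + 1 = k * k + n * n := by
  have h1 := (Phi q).finrank_range_add_finrank_ker
  rw [Module.finrank_prod, Module.finrank_matrix, Module.finrank_matrix, Fintype.card_fin,
    Fintype.card_fin, Module.finrank_self, mul_one, mul_one] at h1
  have h2 : LinearMap.ker (Phi q) = Submodule.span ℂ
      {((-1 : Matrix (Fin k) (Fin k) ℂ), (1 : Matrix (Fin n) (Fin n) ℂ))} := by
    apply le_antisymm
    · rintro ⟨p, β⟩ hpβ
      rw [LinearMap.mem_ker] at hpβ
      have h3 := L0_Phi h q p β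
      rw [hpβ, map_zero] at h3
      have h4 : L0 h q * (-p).map (algebraMap ℂ F) = β.map (algebraMap ℂ F) * L0 h q := by
        have e : (-p).map (algebraMap ℂ F) = -(p.map (algebraMap ℂ F)) := by
          ext i j
          simp
        rw [e, Matrix.mul_neg]
        exact neg_eq_of_add_eq_zero_right h3.symm
      obtain ⟨z, hz⟩ := hst _ _ h4
      have h5 : L0 h q * (-p - z • 1).map (algebraMap ℂ F) = 0 := by
        have e2 : (-p - z • 1).map (algebraMap ℂ F) = (-p).map (algebraMap ℂ F) -
            algebraMap ℂ F z • (1 : Matrix (Fin k) (Fin k) F) := by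
          rw [map_sub', map_smul_one]
        have e3 : β.map (algebraMap ℂ F) =
            algebraMap ℂ F z • (1 : Matrix (Fin n) (Fin n) F) := by
          rw [hz, map_smul_one]
        rw [e2, Matrix.mul_sub, h4, e3, Matrix.mul_smul, Matrix.smul_mul, Matrix.mul_one,
          Matrix.one_mul, sub_self]
      have h6 := mul_L0_eq_zero h q hq h5
      rw [Submodule.mem_span_singleton]
      refine ⟨z, ?_⟩
      rw [Prod.smul_mk, ← hz, smul_neg, ← sub_eq_zero.1 h6, neg_neg]
    · rw [Submodule.span_singleton_le_iff_mem, LinearMap.mem_ker]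
      apply L0_injective h
      rw [L0_Phi, map_zero]
      have e : (-1 : Matrix (Fin k) (Fin k) ℂ).map (algebraMap ℂ F) = -1 := by
        ext i j
        by_cases hij : i = j
        · simp [hij]
        · simp [hij]
      rw [e, Matrix.map_one _ (map_zero _) (map_one _), Matrix.mul_neg, Matrix.mul_one,
        Matrix.one_mul, neg_add_cancel]
  rw [h2, finrank_span_singleton] at h1
  · exact h1
  · intro e
    have h3 := congrFun (congrFun (congrArg Prod.snd e) ⟨0, hn⟩) ⟨0, hn⟩
    simp at h3

end Pool.Agent.CSQ
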