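import Pool.Agent.CSQ.Pos
import Pool.Agent.Hhelper20.CS.Hyp6

/-!
# Semistability of `A ^ n`
-/

open Polynomial TensorProduct Pool.Agent.Hhelper20.CS

namespace Pool.Agent.CSQ

/-- A subspace of `F ^ n` of dimension `r` projects isomorphically to some `r` coordinates. -/
theorem exists_coord {F : Type} [Field F] {n : ℕ} (S : Submodule F (Fin n → F)) :
    ∃ e : Fin (Module.finrank F S) → Fin n,
      (∀ z ∈ S, (∀ i, z (e i) = 0) → z = 0) ∧
      ∀ w : Fin (Module.finrank F S) → F, ∃ z ∈ S, ∀ i, z (e i) = w i := by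
  let φ : Fin n → Module.Dual F S := fun i => LinearMap.proj i ∘ₗ S.subtype
  obtain ⟨κ, b, hb, hspan, hli⟩ := exists_linearIndependent' F φ
  have hfin : Finite κ := Finite.of_injective b hb
  have hκ := Fintype.ofFinite κ
  have htop : Submodule.span F (Set.range φ) = ⊤ := by
    by_contra hne
    obtain ⟨g, hg, hle⟩ := Submodule.exists_le_ker_of_lt_top _ (lt_top_iff_ne_top.2 hne)
    obtain ⟨s, rfl⟩ := (Module.evalEquiv F S).surjective g
    apply hg
    have hs : s = 0 := by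
      apply Subtype.ext
      funext i
      have h1 := hle (Submodule.subset_span ⟨i, rfl⟩)
      rw [LinearMap.mem_ker, Module.evalEquiv_apply, Module.Dual.eval_apply] at h1
      exact h1
    rw [hs, map_zero]
  have hcard : Fintype.card κ = Module.finrank F S := by
    have h1 := linearIndependent_iff_card_eq_finrank_span.1 hli
    rw [Set.finrank, hspan, htop, finrank_top, Subspace.dual_finrank_eq] at h1
    exact h1
  let ε : Fin (Module.finrank F S) ≃ κ := (Fintype.equivFinOfCardEq hcard).symm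
  have hinj : ∀ z ∈ S, (∀ i, z (b (ε i)) = 0) → z = 0 := by
    intro z hz h0
    have h1 : ∀ ψ ∈ Submodule.span F (Set.range (φ ∘ b)), ψ ⟨z, hz⟩ = 0 := by
      intro ψ hψ
      induction hψ using Submodule.span_induction with
      | zero => rfl
      | add x y _ _ hx hy => rw [LinearMap.add_apply, hx, hy, add_zero]
      | smul c x _ hx => rw [LinearMap.smul_apply, hx, smul_zero]
      | mem x hx =>
        obtain ⟨i, rfl⟩ := hx
        have := h0 (ε.symm i)
        rw [Equiv.apply_symm_apply] at this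
        exact this
    rw [hspan, htop] at h1
    funext i
    exact h1 (φ i) trivial
  refine ⟨b ∘ ε, hinj, ?_⟩
  let P : S →ₗ[F] (Fin (Module.finrank F S) → F) := LinearMap.pi fun i => φ (b (ε i))
  have hP : Function.Injective P := by
    rw [injective_iff_map_eq_zero]
    intro z hz
    apply Subtype.ext
    exact hinj z z.2 fun i => congrFun hz i
  have hP' : Function.Surjective P := by
    refine (LinearMap.injective_iff_surjective_of_finrank_eq_finrank ?_).1 hP
    rw [Module.finrank_fintype_fun_eq_card, Fintype.card_fin]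
  intro w
  obtain ⟨z, hz⟩ := hP' w
  exact ⟨z, z.2, fun i => congrFun hz i⟩

variable {F : Type} [Field F] [Algebra ℂ F] {m : ℕ} (h : Hyp F m) {n k a : ℕ}

/-- Clearing denominators. -/
theorem exists_den {ι : Type} [Fintype ι] (z : ι → F) :
    ∃ d : ℂ[X], d ≠ 0 ∧ ∀ i, aeval h.x d * z i ∈ h.U := by
  classical
  choose a b d hd hz using fun i => h.gen (z i)
  refine ⟨∏ i, d i, Finset.prod_ne_zero_iff.2 fun i _ => hd i, ?_⟩
  intro i
  rw [← Finset.mul_prod_erase Finset.univ d (Finset.mem_univ i), map_mul]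
  have h1 : aeval h.x (d i) * aeval h.x (∏ i' ∈ Finset.univ.erase i, d i') * z i =
      aeval h.x (∏ i' ∈ Finset.univ.erase i, d i') *
        (aeval h.x (a i) + aeval h.x (b i) * h.y) := by
    rw [← hz i]; ring
  rw [h1]
  exact h.U.mul_mem (h.aeval_mem _) ⟨_, _, rfl⟩

theorem mem_univ_of_U {z : F} (hz : z ∈ h.U) : z ∈ Sp h.lb Set.univ := by
  have h1 : z ∈ Subalgebra.toSubmodule h.U := hz
  rw [h.toSubmodule_U] at h1
  exact Sp_mono _ (Set.subset_univ _) h1

theorem single_mem_piS {r : ℕ} {M : Submodule ℂ F} {z : F} (hz : z ∈ M) (i : Fin r) :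
    (Pi.single i z : Fin r → F) ∈ piS r M := by
  rw [mem_piS]
  intro j
  by_cases hij : j = i
  · rw [hij, Pi.single_eq_same]; exact hz
  · rw [Pi.single_eq_of_ne hij]; exact M.zero_mem

theorem piS_le_of_single {r : ℕ} {b : ℤ ⊕ ℤ → F} {I : Set (ℤ ⊕ ℤ)} {N : Submodule ℂ (Fin r → F)}
    (hN : ∀ i, ∀ e ∈ I, (Pi.single i (b e) : Fin r → F) ∈ N) : piS r (Sp b I) ≤ N := by
  intro z hz
  rw [mem_piS] at hz
  have h1 : z = ∑ i, Pi.single i (z i) := (Finset.univ_sum_single z).symm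
  rw [h1]
  refine Submodule.sum_mem _ fun i _ => ?_
  have h2 : Sp b I ≤ N.comap (LinearMap.single ℂ (fun _ : Fin r => F) i) := by
    rw [Sp_le]
    intro e he
    exact hN i e he
  exact h2 (hz i)

/-- Comparison of the Euler characteristic of a subbundle of rank `r` with that of `A ^ r`. -/
theorem chi_sub_le (ham : a < m) (S : Submodule F (Fin n → F)) (r : ℕ) (e : Fin r → Fin n)
    (hinj : ∀ z ∈ S, (∀ i, z (e i) = 0) → z = 0)
    (hsurj : ∀ w : Fin r → F, ∃ z ∈ S, ∀ i, z (e i) = w i) :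
    chi (S.restrictScalars ℂ ⊓ piS n (Sp h.lb Hyp.A0))
      (S.restrictScalars ℂ ⊓ piS n (Sp h.lb (Hyp.A1 m a)))
      (S.restrictScalars ℂ ⊓ piS n (Sp h.lb Set.univ)) ≤
    chi (piS r (Sp h.lb Hyp.A0)) (piS r (Sp h.lb (Hyp.A1 m a))) (piS r (Sp h.lb Set.univ)) := by
  choose s hs hse using fun i : Fin r => hsurj (Pi.single i 1)
  obtain ⟨n0, hn0, hd0⟩ := exists_den h (fun x : Fin r × Fin n => s x.1 x.2)
  obtain ⟨n1, hn1, hd1⟩ := exists_den h.swap (fun x : Fin r × Fin n => s x.1 x.2)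
  obtain ⟨T0, hT0, hdiv0⟩ := h.exists_rem hn0
  obtain ⟨T1, hT1, hdiv1⟩ := h.swap.exists_rem hn1
  have hE1x : ∀ w ∈ h.swap.U, h.x ^ (a : ℤ) * w ∈ Sp h.lb (Hyp.A1 m a) :=
    fun w hw => xa_mul_mem h hw
  have hU0 : ∀ w ∈ h.U, w ∈ Sp h.lb Hyp.A0 := by
    intro w hw
    rw [← h.toSubmodule_U]
    exact hw
  -- the sections with single coordinates
  have hpr : ∀ (w d : F) (i : Fin r), LinearMap.funLeft ℂ F e (w • (d • s i)) =
      (Pi.single i (d * w) : Fin r → F) := by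
    intro w d i
    funext j
    rw [LinearMap.funLeft_apply, Pi.smul_apply, Pi.smul_apply, hse, smul_eq_mul, smul_eq_mul]
    by_cases hij : j = i
    · rw [hij, Pi.single_eq_same, Pi.single_eq_same]; ring
    · rw [Pi.single_eq_of_ne hij, Pi.single_eq_of_ne hij]; ring
  have hsingle_add : ∀ (i : Fin r) (u v : F), (Pi.single i (u + v) : Fin r → F) =
      Pi.single i u + Pi.single i v := by
    intro i u v
    funext j
    by_cases hij : j = i
    · rw [hij, Pi.add_apply, Pi.single_eq_same, Pi.single_eq_same, Pi.single_eq_same]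
    · rw [Pi.add_apply, Pi.single_eq_of_ne hij, Pi.single_eq_of_ne hij, Pi.single_eq_of_ne hij,
        add_zero]
  have hmemS : ∀ (w d : F) (i : Fin r), w • (d • s i) ∈ S := fun w d i =>
    S.smul_mem _ (S.smul_mem _ (hs i))
  have f0 := finite_inter h ham
  refine chi_le (LinearMap.funLeft ℂ F e) (S.restrictScalars ℂ) _ _ _ _ _ _
    (fun z hz h0 => hinj z hz fun i => congrFun h0 i)
    inf_le_left inf_le_left inf_le_left ?_ ?_ ?_ ?_ ?_
    (piS r (Sp h.lb (Hyp.A0 ∪ Hyp.A1 m a)ᶜ ⊔ (T0 ⊔ T1.map (LinearMap.mulLeft ℂ (h.x ^ (a : ℤ))))))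
    ?_ ?_
  · rintro _ ⟨z, hz, rfl⟩
    exact mem_piS.2 fun i => mem_piS.1 hz.2 (e i)
  · rintro _ ⟨z, hz, rfl⟩
    exact mem_piS.2 fun i => mem_piS.1 hz.2 (e i)
  · rintro _ ⟨z, hz, rfl⟩
    exact mem_piS.2 fun i => mem_piS.1 hz.2 (e i)
  · refine piS_le_of_single fun i idx _ => ?_
    obtain ⟨w, hw, u, hu, hwu⟩ := h.exists_decomp hn0 idx
    rw [hwu, hsingle_add]
    refine Submodule.add_mem_sup ⟨w • (aeval h.x n0 • s i), ⟨hmemS _ _ _, ?_⟩, hpr _ _ _⟩
      (Submodule.mem_sup_left (single_mem_piS (hU0 u hu) i))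
    rw [SetLike.mem_coe, mem_piS]
    intro j
    exact h.mul_mem_univ hw (mem_univ_of_U h (hd0 (i, j)))
  · rw [piS_inf]
    have h1 := finrank_piS r (Sp h.lb Hyp.A0 ⊓ Sp h.lb (Hyp.A1 m a))
    have e1 : Module.Finite ℂ (Fin r → ↥(Sp h.lb Hyp.A0 ⊓ Sp h.lb (Hyp.A1 m a))) := inferInstance
    let g : ↥(piS r (Sp h.lb Hyp.A0 ⊓ Sp h.lb (Hyp.A1 m a))) →ₗ[ℂ]
        (Fin r → ↥(Sp h.lb Hyp.A0 ⊓ Sp h.lb (Hyp.A1 m a))) :=
      { toFun := fun z i => ⟨z.1 i, mem_piS.1 z.2 i⟩
        map_add' := fun _ _ => rfl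
        map_smul' := fun _ _ => rfl }
    refine Module.Finite.of_injective g ?_
    intro z z' hz
    apply Subtype.ext
    funext i
    exact congrArg Subtype.val (congrFun hz i)
  · have f1 : Module.Finite ℂ (Sp h.lb (Hyp.A0 ∪ Hyp.A1 m a)ᶜ) :=
      finite_Sp _ (Hyp.finite_compl a)
    have f2 : Module.Finite ℂ ↥(Sp h.lb (Hyp.A0 ∪ Hyp.A1 m a)ᶜ ⊔
      (T0 ⊔ T1.map (LinearMap.mulLeft ℂ (h.x ^ (a : ℤ))))) := inferInstance
    let g : ↥(piS r (Sp h.lb (Hyp.A0 ∪ Hyp.A1 m a)ᶜ ⊔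
      (T0 ⊔ T1.map (LinearMap.mulLeft ℂ (h.x ^ (a : ℤ)))))) →ₗ[ℂ]
        (Fin r → ↥(Sp h.lb (Hyp.A0 ∪ Hyp.A1 m a)ᶜ ⊔
      (T0 ⊔ T1.map (LinearMap.mulLeft ℂ (h.x ^ (a : ℤ)))))) :=
      { toFun := fun z i => ⟨z.1 i, mem_piS.1 z.2 i⟩
        map_add' := fun _ _ => rfl
        map_smul' := fun _ _ => rfl }
    refine Module.Finite.of_injective g ?_
    intro z z' hz
    apply Subtype.ext
    funext i
    exact congrArg Subtype.val (congrFun hz i)
  · refine piS_le_of_single fun i idx _ => ?_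
    by_cases hi : idx ∈ Hyp.A0 ∪ Hyp.A1 m a
    · rcases hi with hi | hi
      · have h1 : h.lb idx ∈ h.U := by
          have h2 : h.lb idx ∈ Subalgebra.toSubmodule h.U := by
            rw [h.toSubmodule_U]; exact mem_Sp_of _ hi
          exact h2
        obtain ⟨t, ht, w, hw, hwu⟩ := hdiv0 _ h1
        rw [hwu, hsingle_add]
        refine Submodule.add_mem_sup (single_mem_piS (Submodule.mem_sup_right
          (Submodule.mem_sup_left ht)) i) (Submodule.mem_sup_left
            ⟨w • (aeval h.x n0 • s i), ⟨hmemS _ _ _, ?_⟩, hpr _ _ _⟩)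
        rw [SetLike.mem_coe, mem_piS]
        intro j
        exact hU0 _ (h.U.mul_mem hw (hd0 (i, j)))
      · have h1 : h.lb idx ∈ Sp h.lb (Hyp.A1 m a) := mem_Sp_of _ hi
        rw [← h.toSubmodule_swap_U a] at h1
        obtain ⟨u, hu, hui⟩ := h1
        rw [← hui]
        obtain ⟨t, ht, w, hw, hwu⟩ := hdiv1 _ hu
        rw [hwu, map_add, hsingle_add]
        have ht' : LinearMap.mulLeft ℂ (h.x ^ (a : ℤ)) t ∈
            Sp h.lb (Hyp.A0 ∪ Hyp.A1 m a)ᶜ ⊔ (T0 ⊔ T1.map (LinearMap.mulLeft ℂ (h.x ^ (a : ℤ)))) :=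
          Submodule.mem_sup_right (Submodule.mem_sup_right (Submodule.mem_map_of_mem ht))
        refine Submodule.add_mem_sup (single_mem_piS ht' i) (Submodule.mem_sup_right
            ⟨(h.x ^ (a : ℤ) * w) • (aeval h.swap.x n1 • s i), ⟨hmemS _ _ _, ?_⟩, ?_⟩)
        · rw [SetLike.mem_coe, mem_piS]
          intro j
          rw [Pi.smul_apply, smul_eq_mul, mul_assoc]
          exact hE1x _ (h.swap.U.mul_mem hw (hd1 (i, j)))
        · rw [hpr, LinearMap.mulLeft_apply]
          congr 1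
          ring
    · exact Submodule.mem_sup_left (single_mem_piS (Submodule.mem_sup_left (mem_Sp_of _ hi)) i)

variable (hm : 0 < m) (ham : a < m) (q : Ar ℂ n k a)
  (hq : LinearIndependent ℂ fun (j : Fin k) (i : Fin n) => L0 h q i j)

include ham in
/-- Subbundles of `A ^ n` of rank `r` have degree at most `r` times the degree of `A`. -/
theorem degSub_le_mul (S : Submodule F (Fin n → F)) :
    (sys h hm q hq).degSub S ≤ 2 * a * Module.finrank F S := by
  obtain ⟨e, hinj, hsurj⟩ := exists_coord S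
  have h1 := chi_sub_le h ham S _ e hinj hsurj
  have f0 := finite_inter h ham
  have e0 : (Hyp.A0 ∩ Hyp.A1 m a).ncard = a + 1 := Hyp.ncard_inter a ham
  have e1 : (Hyp.A0 ∪ Hyp.A1 m a)ᶜ.ncard = m - 1 - a := Hyp.ncard_compl a
  have f1 : Module.Finite ℂ (↥(Sp h.lb Set.univ) ⧸
      (Sp h.lb Hyp.A0 ⊔ Sp h.lb (Hyp.A1 m a)).comap (Sp h.lb Set.univ).subtype) := by
    rw [← Sp_union]
    apply finite_quot_Sp h.lb_indep
    rw [← Set.compl_eq_univ_sdiff]
    exact Hyp.finite_compl a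
  unfold CohSys.degSub
  rw [sys_E0, sys_E1, sys_E01, h.chiO_curve]
  have h2 : chi (piS (Module.finrank F S) (Sp h.lb Hyp.A0))
      (piS (Module.finrank F S) (Sp h.lb (Hyp.A1 m a)))
      (piS (Module.finrank F S) (Sp h.lb Set.univ)) =
      Module.finrank F S * (2 * a + 2 - m) := by
    unfold chi
    rw [h0_piS, h1_piS, h0_Sp h.lb_indep, h1_Sp h.lb_indep, e0, e1]
    have e2 : ((m - 1 - a : ℕ) : ℤ) = m - 1 - a := by omega
    push_cast [e2]
    ring
  rw [h2] at h1
  linarith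

end Pool.Agent.CSQ
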