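import Mathlib

/-!
# Sparse polynomials and general position

A nonzero polynomial over `ℂ` divisible by `(1 + X) ^ p` has more than `p` nonzero coefficients.
This gives the general position property of the columns of the matrix
`binom(p, j - i) * X ^ (c * (j - i))`.
-/

open Polynomial

namespace Pool.Agent.CSQ

/-- A nonzero polynomial divisible by `(1 + X) ^ p` has more than `p` nonzero coefficients. -/
theorem lt_card_support : ∀ (p : ℕ) (P : ℂ[X]), P ≠ 0 → (1 + X) ^ p ∣ P → p < P.support.card := by
  intro p
  induction p with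
  | zero =>
    intro P hP _
    exact Finset.card_pos.2 (nonempty_support_iff.2 hP)
  | succ p ih =>
    intro P hP hd
    obtain ⟨r, hr⟩ := nonempty_support_iff.2 hP
    obtain ⟨P1, hP1⟩ : ∃ P1 : ℂ[X], P1 = X * derivative P - C (r : ℂ) * P := ⟨_, rfl⟩
    have hc : ∀ d, P1.coeff d = ((d : ℂ) - r) * P.coeff d := by
      intro d
      rw [hP1, coeff_sub, coeff_C_mul]
      rcases d with _ | d
      · simp
      · rw [coeff_X_mul, coeff_derivative]
        push_cast
        ring
    have hs : P1.support = P.support.erase r := by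
      ext d
      rw [mem_support_iff, hc, Finset.mem_erase, mem_support_iff, mul_ne_zero_iff, sub_ne_zero]
      constructor
      · rintro ⟨h1, h2⟩
        exact ⟨fun e => h1 (by rw [e]), h2⟩
      · rintro ⟨h1, h2⟩
        exact ⟨fun e => h1 (by exact_mod_cast e), h2⟩
    have hne : P1 ≠ 0 := by
      intro h0
      have hs0 : P.support.erase r = ∅ := by rw [← hs, h0, support_zero]
      have hPm : P = C (P.coeff r) * X ^ r := by
        ext d
        rw [coeff_C_mul, coeff_X_pow]
        by_cases hdr : d = r
        · rw [if_pos hdr, hdr, mul_one]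
        · rw [if_neg hdr, mul_zero]
          by_contra h1
          have : d ∈ P.support.erase r := Finset.mem_erase.2 ⟨hdr, mem_support_iff.2 h1⟩
          rw [hs0] at this
          exact absurd this (Finset.notMem_empty _)
      have h1 : (1 + X : ℂ[X]) ∣ P := (dvd_pow_self _ (Nat.succ_ne_zero p)).trans hd
      obtain ⟨Q, hQ⟩ := h1
      have h2 := congrArg (eval (-1 : ℂ)) hQ
      rw [hPm] at h2
      simp only [eval_mul, eval_C, eval_pow, eval_X, eval_add, eval_one] at h2
      rw [add_neg_cancel, zero_mul, mul_eq_zero] at h2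
      rcases h2 with h2 | h2
      · exact mem_support_iff.1 hr h2
      · exact pow_ne_zero r (by norm_num : (-1 : ℂ) ≠ 0) h2
    have hd1 : (1 + X) ^ p ∣ P1 := by
      obtain ⟨Q, hQ⟩ := hd
      refine ⟨X * (C ((p : ℂ) + 1) * Q + (1 + X) * derivative Q) - C (r : ℂ) * ((1 + X) * Q), ?_⟩
      rw [hP1, hQ, derivative_mul, derivative_pow]
      simp only [derivative_add, derivative_one, derivative_X, zero_add, mul_one,
        Nat.add_sub_cancel, Nat.cast_add, Nat.cast_one, map_add, map_natCast, map_one]
      rw [pow_succ]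
      ring
    have h3 := ih P1 hne hd1
    rw [hs, Finset.card_erase_of_mem hr] at h3
    have h4 : 0 < P.support.card := Finset.card_pos.2 ⟨r, hr⟩
    omega

/-- `X`-coefficients of the product with `(1 + X) ^ p`. -/
theorem coeff_mul_binom (p : ℕ) (A : ℂ[X]) (n : ℕ) (hA : A.natDegree < n) (j : ℕ) :
    (A * (1 + X) ^ p).coeff j =
      ∑ i : Fin n, if (i : ℕ) ≤ j then A.coeff i * (p.choose (j - i) : ℂ) else 0 := by
  rw [coeff_mul, Finset.Nat.sum_antidiagonal_eq_sum_range_succ_mk]
  have h1 : ∀ i, ((1 + X : ℂ[X]) ^ p).coeff i = (p.choose i : ℂ) := by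
    intro i
    exact coeff_one_add_X_pow ℂ p i
  simp only [h1]
  have h2 : (∑ i : Fin n, if (i : ℕ) ≤ j then A.coeff i * (p.choose (j - i) : ℂ) else 0) =
      ∑ i ∈ Finset.range n, if i ≤ j then A.coeff i * (p.choose (j - i) : ℂ) else 0 :=
    Fin.sum_univ_eq_sum_range (fun i => if i ≤ j then A.coeff i * (p.choose (j - i) : ℂ) else 0) n
  rw [h2, ← Finset.sum_filter]
  refine (Finset.sum_subset_zero_on_sdiff ?_ ?_ ?_).symm
  · intro i hi
    rw [Finset.mem_filter] at hi
    rw [Finset.mem_range]
    omega
  · intro i hi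
    rw [Finset.mem_sdiff, Finset.mem_range, Finset.mem_filter, Finset.mem_range] at hi
    have h3 : n ≤ i := by
      by_contra h4
      exact hi.2 ⟨by omega, by omega⟩
    rw [coeff_eq_zero_of_natDegree_lt (by omega), zero_mul]
  · intro i _
    rfl

end Pool.Agent.CSQ
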