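import Pool.Agent.Hhelper20.CS.Hyp5

/-!
# Coherent systems `(A ^ n, V)` on the hyperelliptic curve, `A` a power of the hyperelliptic bundle

The sections are given by arrays of coefficients.
-/

open Polynomial TensorProduct Pool.Agent.Hhelper20.CS

namespace Pool.Agent.CSQ

/-- Arrays of coefficients: `n` by `k` matrices of polynomials of degree at most `a`. -/
abbrev Ar (R : Type) (n k a : ℕ) : Type := Fin n → Fin k → Fin (a + 1) → R

variable {F : Type} [Field F] [Algebra ℂ F] {m : ℕ} (h : Hyp F m) {n k a : ℕ}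

/-- The matrix of functions on the first chart defined by an array. -/
noncomputable def L0 : Ar ℂ n k a →ₗ[ℂ] Matrix (Fin n) (Fin k) F where
  toFun c := Matrix.of fun i j => ∑ d : Fin (a + 1), c i j d • h.x ^ (d : ℕ)
  map_add' c c' := by
    ext i j
    simp only [Matrix.of_apply, Matrix.add_apply, Pi.add_apply, add_smul, Finset.sum_add_distrib]
  map_smul' r c := by
    ext i j
    simp only [Matrix.of_apply, Matrix.smul_apply, Pi.smul_apply, RingHom.id_apply,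
      Finset.smul_sum, smul_assoc]

theorem L0_apply (c : Ar ℂ n k a) (i : Fin n) (j : Fin k) :
    L0 h c i j = ∑ d : Fin (a + 1), c i j d • h.x ^ (d : ℕ) := rfl

/-- The matrix of functions on the second chart defined by an array. -/
noncomputable def L1 (c : Ar ℂ n k a) : Matrix (Fin n) (Fin k) F :=
  Matrix.of fun i j => ∑ d : Fin (a + 1), c i j d • h.x ^ ((d : ℤ) - a)

theorem L1_apply (c : Ar ℂ n k a) (i : Fin n) (j : Fin k) :
    L1 h c i j = ∑ d : Fin (a + 1), c i j d • h.x ^ ((d : ℤ) - a) := rfl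

theorem L0_eq (c : Ar ℂ n k a) (i : Fin n) (j : Fin k) :
    L0 h c i j = h.x ^ (a : ℤ) * L1 h c i j := by
  rw [L0_apply, L1_apply, Finset.mul_sum]
  refine Finset.sum_congr rfl fun d _ => ?_
  rw [mul_smul_comm, ← zpow_add₀ h.x_ne]
  congr 1
  rw [← zpow_natCast]
  congr 1
  ring

/-- The polynomials of the array. -/
noncomputable def pol (c : Ar ℂ n k a) (i : Fin n) (j : Fin k) : ℂ[X] :=
  ∑ d : Fin (a + 1), C (c i j d) * X ^ (d : ℕ)

theorem aeval_pol (c : Ar ℂ n k a) (i : Fin n) (j : Fin k) :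
    aeval h.x (pol c i j) = L0 h c i j := by
  rw [pol, map_sum, L0_apply]
  refine Finset.sum_congr rfl fun d _ => ?_
  rw [map_mul, aeval_C, map_pow, aeval_X, Algebra.smul_def]

theorem coeff_pol (c : Ar ℂ n k a) (i : Fin n) (j : Fin k) (d : Fin (a + 1)) :
    (pol c i j).coeff d = c i j d := by
  rw [pol, finsetSum_coeff, Finset.sum_eq_single d]
  · simp
  · intro b _ hb
    rw [coeff_C_mul, coeff_X_pow, if_neg fun e => hb (Fin.ext e.symm), mul_zero]
  · intro h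
    exact absurd (Finset.mem_univ _) h

theorem L0_injective : Function.Injective (L0 (n := n) (k := k) (a := a) h) := by
  rw [injective_iff_map_eq_zero]
  intro c hc
  funext i j d
  have h1 : aeval h.x (pol c i j) = 0 := by
    rw [aeval_pol, hc]
    rfl
  have h2 := coeff_pol c i j d
  rw [h.inj h1, coeff_zero] at h2
  exact h2.symm

theorem L0_mem (c : Ar ℂ n k a) (i : Fin n) (j : Fin k) : L0 h c i j ∈ h.U := by
  rw [← aeval_pol]
  exact h.aeval_mem _

theorem zpow_mem (e : ℤ) (he : e ≤ 0) : h.x ^ e ∈ h.swap.U := by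
  obtain ⟨N, hN⟩ := Int.eq_ofNat_of_zero_le (show 0 ≤ -e by omega)
  have h1 : h.x ^ e = h.swap.x ^ N := by
    have : e = -(N : ℤ) := by omega
    rw [this, zpow_neg, zpow_natCast, h.swap_x, inv_pow]
  rw [h1]
  exact h.swap.U.pow_mem h.swap.x_mem N

theorem L1_mem (c : Ar ℂ n k a) (i : Fin n) (j : Fin k) : L1 h c i j ∈ h.swap.U := by
  rw [L1_apply]
  refine Subalgebra.sum_mem _ fun d _ => h.swap.U.smul_mem (zpow_mem h _ ?_) _
  have := d.2
  omega

/-- The functions in the intersection are the polynomials of degree at most `a`. -/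
theorem mem_Sp_inter (ham : a < m) (z : F) : z ∈ Sp h.lb (Hyp.A0 ∩ Hyp.A1 m a) ↔
    ∃ c : Fin (a + 1) → ℂ, z = ∑ d : Fin (a + 1), c d • h.x ^ (d : ℕ) := by
  have e : h.lb '' (Hyp.A0 ∩ Hyp.A1 m a) = Set.range fun d : Fin (a + 1) => h.x ^ (d : ℕ) := by
    rw [Hyp.inter_eq a ham]
    ext z
    constructor
    · rintro ⟨_, ⟨i, hi, rfl⟩, rfl⟩
      obtain ⟨N, rfl⟩ := Int.eq_ofNat_of_zero_le hi.1
      have h2 := hi.2
      refine ⟨⟨N, by omega⟩, ?_⟩
      simp [Hyp.lb]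
    · rintro ⟨d, rfl⟩
      refine ⟨Sum.inl (d : ℤ), ⟨d, ⟨by omega, by have := d.2; omega⟩, rfl⟩, ?_⟩
      simp [Hyp.lb]
  rw [Sp, e, Submodule.mem_span_range_iff_exists_fun]
  exact ⟨fun ⟨c, hc⟩ => ⟨c, hc.symm⟩, fun ⟨c, hc⟩ => ⟨c, hc.symm⟩⟩

theorem L0_mem_Sp (ham : a < m) (c : Ar ℂ n k a) (i : Fin n) (j : Fin k) :
    L0 h c i j ∈ Sp h.lb (Hyp.A0 ∩ Hyp.A1 m a) :=
  (mem_Sp_inter h ham _).2 ⟨_, rfl⟩

theorem exists_L0 (ham : a < m) (M : Matrix (Fin n) (Fin k) F)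
    (hM : ∀ i j, M i j ∈ Sp h.lb (Hyp.A0 ∩ Hyp.A1 m a)) : ∃ c : Ar ℂ n k a, M = L0 h c := by
  choose c hc using fun i j => (mem_Sp_inter h ham _).1 (hM i j)
  exact ⟨c, by ext i j; exact hc i j⟩

section family

variable {B B' : Type} [CommRing B] [Algebra ℂ B] [CommRing B'] [Algebra ℂ B']

/-- The unit `x ^ a`. -/
noncomputable def ux (a : ℕ) (B : Type) [CommRing B] [Algebra ℂ B] : (B ⊗[ℂ] F)ˣ where
  val := 1 ⊗ₜ (h.x ^ (a : ℤ))
  inv := 1 ⊗ₜ (h.x ^ (-(a : ℤ)))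
  val_inv := by
    rw [Algebra.TensorProduct.tmul_mul_tmul, Algebra.TensorProduct.one_def, mul_one,
      ← zpow_add₀ h.x_ne]
    simp
  inv_val := by
    rw [Algebra.TensorProduct.tmul_mul_tmul, Algebra.TensorProduct.one_def, mul_one,
      ← zpow_add₀ h.x_ne]
    simp

/-- The gluing matrix. -/
noncomputable def gM (n a : ℕ) (B : Type) [CommRing B] [Algebra ℂ B] : GL (Fin n) (B ⊗[ℂ] F) :=
  Units.map (Matrix.scalar (Fin n)).toMonoidHom (ux h a B)

theorem gM_val (n a : ℕ) :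
    (gM h n a B).val = Matrix.diagonal fun _ => 1 ⊗ₜ (h.x ^ (a : ℤ)) := rfl

theorem gM_inv (n a : ℕ) :
    (gM h n a B).inv = Matrix.diagonal fun _ => 1 ⊗ₜ (h.x ^ (-(a : ℤ))) := rfl

/-- The sections on the first chart. -/
noncomputable def W0 (Q : Ar B n k a) : Matrix (Fin n) (Fin k) (B ⊗[ℂ] F) :=
  Matrix.of fun i j => ∑ d : Fin (a + 1), Q i j d ⊗ₜ[ℂ] (h.x ^ (d : ℕ))

/-- The sections on the second chart. -/
noncomputable def W1 (Q : Ar B n k a) : Matrix (Fin n) (Fin k) (B ⊗[ℂ] F) :=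
  Matrix.of fun i j => ∑ d : Fin (a + 1), Q i j d ⊗ₜ[ℂ] (h.x ^ ((d : ℤ) - a))

theorem W0_over (Q : Ar B n k a) : Over h.U (W0 h Q) := by
  intro i j
  change ∑ d : Fin (a + 1), Q i j d ⊗ₜ[ℂ] (h.x ^ (d : ℕ)) ∈ fn B h.U
  refine AddSubmonoid.sum_mem _ fun d _ => ?_
  exact tmul_mem_fn _ (h.U.pow_mem h.x_mem _)

theorem W1_over (Q : Ar B n k a) : Over h.swap.U (W1 h Q) := by
  intro i j
  change ∑ d : Fin (a + 1), Q i j d ⊗ₜ[ℂ] (h.x ^ ((d : ℤ) - a)) ∈ fn B h.swap.U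
  refine AddSubmonoid.sum_mem _ fun d _ => ?_
  refine tmul_mem_fn _ (zpow_mem h _ ?_)
  have := d.2
  omega

variable (hm : 0 < m) (q : Ar ℂ n k a)
  (hq : LinearIndependent ℂ fun (j : Fin k) (i : Fin n) => L0 h q i j)

/-- The family of coherent systems with constant bundle `A ^ n` and sections given by the array
`Q`, which specialises to `q` at all points of the base. -/
noncomputable def fam (Q : Ar B n k a) (hQ : ∀ (ρ : B →ₐ[ℂ] ℂ) i j d, ρ (Q i j d) = q i j d) :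
    CohSys (h.curve hm) B n k where
  g := gM h n a B
  s0 := W0 h Q
  s1 := W1 h Q
  hg := by
    refine ⟨?_, ?_⟩
    · intro i j
      rw [gM_val, Matrix.diagonal_apply]
      split_ifs
      · exact tmul_mem_fn _ (h.x_pow_mem_U01 hm _)
      · exact AddSubmonoid.zero_mem _
    · intro i j
      rw [gM_inv, Matrix.diagonal_apply]
      split_ifs
      · exact tmul_mem_fn _ (h.x_pow_mem_U01 hm _)
      · exact AddSubmonoid.zero_mem _
  h0 := W0_over h Q
  h1 := W1_over h Q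
  glue := by
    ext i j
    rw [gM_val, Matrix.diagonal_mul, W0, W1, Matrix.of_apply, Matrix.of_apply, Finset.mul_sum]
    refine Finset.sum_congr rfl fun d _ => ?_
    rw [Algebra.TensorProduct.tmul_mul_tmul, one_mul, ← zpow_add₀ h.x_ne, ← zpow_natCast]
    congr 2
    ring
  indep := by
    intro ρ
    have h1 : (fun (j : Fin k) (i : Fin n) => ev ρ (W0 h Q i j)) =
        fun (j : Fin k) (i : Fin n) => L0 h q i j := by
      funext j i
      rw [W0, Matrix.of_apply, map_sum, L0_apply]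
      refine Finset.sum_congr rfl fun d _ => ?_
      rw [ev_tmul, hQ]
    rw [h1]
    exact hq

variable (Q : Ar B n k a) (hQ : ∀ (ρ : B →ₐ[ℂ] ℂ) i j d, ρ (Q i j d) = q i j d)

theorem fam_s0 (i : Fin n) (j : Fin k) :
    (fam h hm q hq Q hQ).s0 i j = ∑ d : Fin (a + 1), Q i j d ⊗ₜ[ℂ] (h.x ^ (d : ℕ)) := rfl

theorem fam_s1 (i : Fin n) (j : Fin k) :
    (fam h hm q hq Q hQ).s1 i j = ∑ d : Fin (a + 1), Q i j d ⊗ₜ[ℂ] (h.x ^ ((d : ℤ) - a)) := rfl

theorem fam_g (i j : Fin n) :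
    (fam h hm q hq Q hQ).g.val i j = if i = j then 1 ⊗ₜ (h.x ^ (a : ℤ)) else 0 := by
  change (gM h n a B).val i j = _
  rw [gM_val, Matrix.diagonal_apply]

include hQ in
theorem hQ_comp (φ : B →ₐ[ℂ] B') (ρ : B' →ₐ[ℂ] ℂ) (i : Fin n) (j : Fin k) (d : Fin (a + 1)) :
    ρ (φ (Q i j d)) = q i j d := hQ (ρ.comp φ) i j d

theorem fam_map (φ : B →ₐ[ℂ] B') :
    (fam h hm q hq Q hQ).map φ = fam h hm q hq (fun i j d => φ (Q i j d))
      (hQ_comp q Q hQ φ) := by
  apply CohSys.ext'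
  · apply Units.ext
    ext i j
    change bc φ ((fam h hm q hq Q hQ).g.val i j) = (fam h hm q hq _ _).g.val i j
    rw [fam_g, fam_g]
    split_ifs
    · rw [bc_tmul, map_one]
    · rw [map_zero]
  · ext i j
    change bc φ ((fam h hm q hq Q hQ).s0 i j) = (fam h hm q hq _ _).s0 i j
    rw [fam_s0, fam_s0, map_sum]
    rfl
  · ext i j
    change bc φ ((fam h hm q hq Q hQ).s1 i j) = (fam h hm q hq _ _).s1 i j
    rw [fam_s1, fam_s1, map_sum]
    rfl

theorem fam_congr {Q Q' : Ar B n k a} (hQ : ∀ (ρ : B →ₐ[ℂ] ℂ) i j d, ρ (Q i j d) = q i j d)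
    (hQ' : ∀ (ρ : B →ₐ[ℂ] ℂ) i j d, ρ (Q' i j d) = q i j d) (e : Q = Q') :
    fam h hm q hq Q hQ = fam h hm q hq Q' hQ' := by
  subst e
  rfl

theorem hq0 (ρ : ℂ →ₐ[ℂ] ℂ) (i : Fin n) (j : Fin k) (d : Fin (a + 1)) :
    ρ (q i j d) = q i j d := by
  have : ρ = AlgHom.id ℂ ℂ := by ext
  rw [this]
  rfl

/-- The coherent system. -/
noncomputable def sys : CohSys (h.curve hm) ℂ n k := fam h hm q hq q (hq0 q)

theorem fam_det : CohSys.SameDet (sys h hm q hq) (fam h hm q hq Q hQ) := by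
  refine ⟨1, 1, 1, 1, one_mem_fn, one_mem_fn, one_mul 1, one_mem_fn, one_mem_fn, one_mul 1, ?_⟩
  rw [one_mul, mul_one]
  have h1 := RingHom.map_det (bc (F := F) (Algebra.ofId ℂ B)) (sys h hm q hq).g.val
  rw [h1]
  congr 1
  ext i j
  change _ = bc (Algebra.ofId ℂ B) ((sys h hm q hq).g.val i j)
  rw [sys, fam_g, fam_g]
  split_ifs
  · rw [bc_tmul, map_one]
  · rw [map_zero]

theorem ev_sys_s0 (i : Fin n) (j : Fin k) :
    ev (AlgHom.id ℂ ℂ) ((sys h hm q hq).s0 i j) = L0 h q i j := by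
  rw [sys, fam_s0, map_sum, L0_apply]
  exact Finset.sum_congr rfl fun d _ => ev_tmul _ _ _

theorem ev_sys_s1 (i : Fin n) (j : Fin k) :
    ev (AlgHom.id ℂ ℂ) ((sys h hm q hq).s1 i j) = L1 h q i j := by
  rw [sys, fam_s1, map_sum, L1_apply]
  exact Finset.sum_congr rfl fun d _ => ev_tmul _ _ _

theorem ev_sys_g (i j : Fin n) :
    ev (AlgHom.id ℂ ℂ) ((sys h hm q hq).g.val i j) = if i = j then h.x ^ (a : ℤ) else 0 := by
  rw [sys, fam_g]
  split_ifs
  · rw [ev_tmul]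
    simp only [AlgHom.coe_id, id_eq, one_smul]
  · rw [map_zero]

theorem sys_V : (sys h hm q hq).V =
    Submodule.span ℂ (Set.range fun (j : Fin k) (i : Fin n) => L0 h q i j) := by
  unfold CohSys.V
  simp only [ev_sys_s0]

theorem sys_gF : (sys h hm q hq).gF = Matrix.scalar (Fin n) (h.x ^ (a : ℤ)) := by
  ext i j
  change ev (AlgHom.id ℂ ℂ) ((sys h hm q hq).g.val i j) = _
  rw [ev_sys_g, Matrix.scalar_apply, Matrix.diagonal_apply]

theorem sys_E0 : (sys h hm q hq).E0 = piS n (Sp h.lb Hyp.A0) := by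
  rw [← h.toSubmodule_U]; rfl

theorem sys_E01 : (sys h hm q hq).E01 = piS n (Sp h.lb Set.univ) := by
  rw [← h.toSubmodule_U01 hm]; rfl

theorem sys_E1 : (sys h hm q hq).E1 = piS n (Sp h.lb (Hyp.A1 m a)) := by
  unfold CohSys.E1
  rw [sys_gF, ← h.toSubmodule_swap_U a]
  change (piS n (Subalgebra.toSubmodule h.swap.U)).map _ = _
  ext z
  constructor
  · rintro ⟨w, hw, rfl⟩
    rw [mem_piS]
    intro i
    refine ⟨w i, mem_piS.1 hw i, ?_⟩
    simp only [LinearMap.mulLeft_apply, LinearMap.coe_restrictScalars, Matrix.mulVecLin_apply,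
      Matrix.scalar_apply, Matrix.mulVec_diagonal]
  · intro hz
    rw [mem_piS] at hz
    choose w hw hwz using hz
    refine ⟨w, mem_piS.2 hw, ?_⟩
    funext i
    rw [← hwz i]
    simp only [LinearMap.mulLeft_apply, LinearMap.coe_restrictScalars, Matrix.mulVecLin_apply,
      Matrix.scalar_apply, Matrix.mulVec_diagonal]

theorem finite_inter (ham : a < m) :
    Module.Finite ℂ ↥(Sp h.lb Hyp.A0 ⊓ Sp h.lb (Hyp.A1 m a)) := by
  rw [← Sp_inter h.lb_indep]
  apply finite_Sp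
  apply Set.finite_of_ncard_pos
  have e0 := Hyp.ncard_inter (m := m) a ham
  omega

theorem sys_deg (ham : a < m) : (sys h hm q hq).deg = 2 * n * a := by
  unfold CohSys.deg CohSys.degSub
  have ht : (⊤ : Submodule F (Fin n → F)).restrictScalars ℂ = ⊤ := rfl
  rw [ht, top_inf_eq, top_inf_eq, top_inf_eq, sys_E0, sys_E1, sys_E01, h.chiO_curve, chi]
  have e0 : (Hyp.A0 ∩ Hyp.A1 m a).ncard = a + 1 := Hyp.ncard_inter a ham
  have e1 : (Hyp.A0 ∪ Hyp.A1 m a)ᶜ.ncard = m - 1 - a := Hyp.ncard_compl a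
  have f0 := finite_inter h ham
  have f1 : Module.Finite ℂ (↥(Sp h.lb Set.univ) ⧸
      (Sp h.lb Hyp.A0 ⊔ Sp h.lb (Hyp.A1 m a)).comap (Sp h.lb Set.univ).subtype) := by
    rw [← Sp_union]
    apply finite_quot_Sp h.lb_indep
    rw [← Set.compl_eq_univ_sdiff]
    exact Hyp.finite_compl a
  rw [h0_piS, h1_piS, h0_Sp h.lb_indep, h1_Sp h.lb_indep, e0, e1, finrank_top,
    Module.finrank_fintype_fun_eq_card, Fintype.card_fin]
  have e2 : ((m - 1 - a : ℕ) : ℤ) = m - 1 - a := by omega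
  push_cast [e2]
  ring

theorem sys_h1det : (sys h hm q hq).h1det = m - 1 - n * a := by
  unfold CohSys.h1det
  have hd : (sys h hm q hq).gF.det = h.x ^ ((n * a : ℕ) : ℤ) := by
    rw [sys_gF, Matrix.scalar_apply, Matrix.det_diagonal, Finset.prod_const, Finset.card_univ,
      Fintype.card_fin, zpow_natCast, zpow_natCast, ← pow_mul, mul_comm]
  rw [hd, h.toSubmodule_U01]
  change h1 (Subalgebra.toSubmodule h.U) ((Subalgebra.toSubmodule h.swap.U).map
    (LinearMap.mulLeft ℂ (h.x ^ ((n * a : ℕ) : ℤ)))) _ = _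
  rw [h.toSubmodule_U, h.toSubmodule_swap_U, h1_Sp h.lb_indep]
  exact Hyp.ncard_compl (n * a)

end family

end Pool.Agent.CSQ
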