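import Pool.Agent.CSQ.Sys

/-!
# First order deformations of the coherent system
-/

open Polynomial TensorProduct Pool.Agent.Hhelper20.CS

namespace Pool.Agent.CSQ

section lin

/-- `N + 1` vectors are dependent modulo a subspace of codimension `N`. -/
theorem exists_dep {V W T : Type} [AddCommGroup V] [Module ℂ V] [AddCommGroup W] [Module ℂ W]
    [AddCommGroup T] [Module ℂ T] [Module.Finite ℂ V] (L : V →ₗ[ℂ] W) (R : Submodule ℂ V) {N : ℕ}
    (hN : Module.finrank ℂ R + N = Module.finrank ℂ V) (ν : T →ₗ[ℂ] W) (f : Fin (N + 1) → T)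
    (hf : ∀ i, ∃ v, L v = ν (f i)) :
    ∃ c : Fin (N + 1) → ℂ, (∃ i, c i ≠ 0) ∧ ∃ r ∈ R, L r = ν (∑ i, c i • f i) := by
  choose v hv using hf
  have h1 : ¬ LinearIndependent ℂ fun i => R.mkQ (v i) := by
    intro hli
    have h2 := hli.fintype_card_le_finrank
    rw [Fintype.card_fin] at h2
    have h3 := R.finrank_quotient_add_finrank
    omega
  rw [Fintype.not_linearIndependent_iff] at h1
  obtain ⟨c, hc, hi⟩ := h1
  refine ⟨c, hi, ∑ i, c i • v i, ?_, ?_⟩
  · rw [← Submodule.Quotient.mk_eq_zero, ← Submodule.mkQ_apply, map_sum, ← hc]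
    exact Finset.sum_congr rfl fun i _ => by rw [map_smul]
  · rw [map_sum, map_sum]
    exact Finset.sum_congr rfl fun i _ => by rw [map_smul, map_smul, hv]

end lin

variable {F : Type} [Field F] [Algebra ℂ F] {m : ℕ} (h : Hyp F m) {n k a : ℕ}

/-- The infinitesimal changes of basis. -/
noncomputable def Phi (q : Ar ℂ n k a) :
    (Matrix (Fin k) (Fin k) ℂ × Matrix (Fin n) (Fin n) ℂ) →ₗ[ℂ] Ar ℂ n k a where
  toFun z := fun i j d => ∑ s, q i s d * z.1 s j + ∑ b, z.2 i b * q b j d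
  map_add' z w := by
    funext i j d
    simp only [Prod.fst_add, Prod.snd_add, Matrix.add_apply, Pi.add_apply, mul_add, add_mul,
      Finset.sum_add_distrib]
    ring
  map_smul' r z := by
    funext i j d
    simp only [Prod.smul_fst, Prod.smul_snd, Matrix.smul_apply, Pi.smul_apply, smul_eq_mul,
      RingHom.id_apply, mul_add, Finset.mul_sum]
    congr 1
    · exact Finset.sum_congr rfl fun s _ => by ring
    · exact Finset.sum_congr rfl fun s _ => by ring

theorem Phi_apply (q : Ar ℂ n k a) (p : Matrix (Fin k) (Fin k) ℂ) (β : Matrix (Fin n) (Fin n) ℂ)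
    (i : Fin n) (j : Fin k) (d : Fin (a + 1)) :
    Phi q (p, β) i j d = ∑ s, q i s d * p s j + ∑ b, β i b * q b j d := rfl

theorem L0_Phi (q : Ar ℂ n k a) (p : Matrix (Fin k) (Fin k) ℂ) (β : Matrix (Fin n) (Fin n) ℂ) :
    L0 h (Phi q (p, β)) = L0 h q * p.map (algebraMap ℂ F) + β.map (algebraMap ℂ F) * L0 h q := by
  ext i j
  simp only [Matrix.add_apply, Matrix.mul_apply, Matrix.map_apply, L0_apply, Phi_apply, add_smul,
    Finset.sum_add_distrib, Finset.sum_smul, Finset.sum_mul, Finset.mul_sum]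
  rw [Finset.sum_comm, Finset.sum_comm (γ := Fin n)]
  congr 1
  · refine Finset.sum_congr rfl fun s _ => Finset.sum_congr rfl fun d _ => ?_
    simp only [Algebra.smul_def, map_mul]
    ring
  · refine Finset.sum_congr rfl fun s _ => Finset.sum_congr rfl fun d _ => ?_
    simp only [Algebra.smul_def, map_mul]
    ring

section tangent

variable {B : Type} [CommRing B] [Algebra ℂ B] {hm : 0 < m}
  (Y : CohSys (h.curve hm) B n k) (q : Ar ℂ n k a)

/-- First order part of the gluing matrix, divided by `x ^ a`. -/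
noncomputable def tN (a : ℕ) (l : B →ₗ[ℂ] ℂ) : Matrix (Fin n) (Fin n) F :=
  Matrix.of fun i b => h.x ^ (-(a : ℤ)) * Dl l (Y.g.val i b)

/-- Its part on the first chart. -/
noncomputable def tP (a : ℕ) (l : B →ₗ[ℂ] ℂ) : Matrix (Fin n) (Fin n) F :=
  Matrix.of fun i b => pj h.lb_indep Hyp.A0 (tN h Y a l i b)

theorem tN_apply (l : B →ₗ[ℂ] ℂ) (i b : Fin n) :
    tN h Y a l i b = h.x ^ (-(a : ℤ)) * Dl l (Y.g.val i b) := rfl

theorem tP_apply (l : B →ₗ[ℂ] ℂ) (i b : Fin n) :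
    tP h Y a l i b = pj h.lb_indep Hyp.A0 (tN h Y a l i b) := rfl

/-- The corrected first order part of the sections. -/
noncomputable def tnu : (B →ₗ[ℂ] ℂ) →ₗ[ℂ] Matrix (Fin n) (Fin k) F where
  toFun l := Y.s0.map (Dl l) - tP h Y a l * L0 h q
  map_add' l l' := by
    have h1 : tP h Y a (l + l') = tP h Y a l + tP h Y a l' := by
      ext i b
      rw [Matrix.add_apply, tP_apply, tP_apply, tP_apply, ← map_add]
      congr 1
      rw [tN_apply, tN_apply, tN_apply, Dl_add, mul_add]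
    have h2 : Y.s0.map (Dl (l + l')) = Y.s0.map (Dl l) + Y.s0.map (Dl l') := by
      ext i j
      exact Dl_add _ _ _
    rw [h1, h2, Matrix.add_mul]
    abel
  map_smul' r l := by
    have h1 : tP h Y a (r • l) = r • tP h Y a l := by
      ext i b
      rw [Matrix.smul_apply, tP_apply, tP_apply, ← map_smul]
      congr 1
      rw [tN_apply, tN_apply, Dl_smul, mul_smul_comm]
    have h2 : Y.s0.map (Dl (r • l)) = r • Y.s0.map (Dl l) := by
      ext i j
      exact Dl_smul _ _ _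
    rw [h1, h2, Matrix.smul_mul, RingHom.id_apply, smul_sub]

theorem tnu_apply (l : B →ₗ[ℂ] ℂ) :
    tnu h Y q l = Y.s0.map (Dl l) - tP h Y a l * L0 h q := rfl

variable (hq : LinearIndependent ℂ fun (j : Fin k) (i : Fin n) => L0 h q i j)
  (ρ : B →ₐ[ℂ] ℂ) (hY : Y.map ρ = sys h hm q hq)

include hY in
theorem ev_g : Y.g.val.map (ev ρ) = Matrix.scalar (Fin n) (h.x ^ (a : ℤ)) := by
  ext i b
  rw [Matrix.map_apply, Matrix.scalar_apply, Matrix.diagonal_apply, ← ev_sys_g h hm q hq, ← hY]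
  change _ = ev (AlgHom.id ℂ ℂ) (bc ρ (Y.g.val i b))
  rw [ev_bc, AlgHom.id_comp]

include hY in
theorem ev_s0 : Y.s0.map (ev ρ) = L0 h q := by
  ext i j
  rw [Matrix.map_apply, ← ev_sys_s0 h hm q hq, ← hY]
  change _ = ev (AlgHom.id ℂ ℂ) (bc ρ (Y.s0 i j))
  rw [ev_bc, AlgHom.id_comp]

include hY in
theorem ev_s1 : Y.s1.map (ev ρ) = L1 h q := by
  ext i j
  rw [Matrix.map_apply, ← ev_sys_s1 h hm q hq, ← hY]
  change _ = ev (AlgHom.id ℂ ℂ) (bc ρ (Y.s1 i j))
  rw [ev_bc, AlgHom.id_comp]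

theorem L0_eq_smul (q : Ar ℂ n k a) : L0 h q = h.x ^ (a : ℤ) • L1 h q := by
  ext i j
  rw [Matrix.smul_apply, smul_eq_mul]
  exact L0_eq h q i j

theorem tN_smul (l : B →ₗ[ℂ] ℂ) : Y.g.val.map (Dl l) = h.x ^ (a : ℤ) • tN h Y a l := by
  ext i b
  rw [Matrix.smul_apply, smul_eq_mul, tN_apply, ← mul_assoc, ← zpow_add₀ h.x_ne]
  simp

include hY in
theorem t_glue {l : B →ₗ[ℂ] ℂ} (hl : IsTan ρ l) :
    Y.s0.map (Dl l) = h.x ^ (a : ℤ) • Y.s1.map (Dl l) + tN h Y a l * L0 h q := by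
  rw [Y.glue, map_Dl_mul hl, ev_g h Y q hq ρ hY, ev_s1 h Y q hq ρ hY, tN_smul h Y, L0_eq_smul,
    Matrix.smul_mul, Matrix.mul_smul]
  congr 1
  ext i j
  rw [Matrix.scalar_apply, Matrix.diagonal_mul, Matrix.smul_apply, smul_eq_mul]

theorem xa_mul_mem {u : F} (hu : u ∈ h.swap.U) : h.x ^ (a : ℤ) * u ∈ Sp h.lb (Hyp.A1 m a) := by
  rw [← h.toSubmodule_swap_U a]
  exact ⟨u, hu, rfl⟩

/-- Infinitesimal rigidity of the bundle relative to the sections: a first order deformation of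
`A ^ n` to which all the sections extend is trivial. -/
def Rigid (q : Ar ℂ n k a) : Prop :=
  ∀ u : Fin n → F, (∀ i, u i ∈ Sp h.lb Set.univ) →
    (∀ j, ∑ i, u i * L0 h q i j ∈ Sp h.lb (Hyp.A0 ∪ Hyp.A1 m a)) →
    ∀ i, u i ∈ Sp h.lb (Hyp.A0 ∪ Hyp.A1 m 0)

variable (hr : Rigid h q)

include hY hr in
theorem tN_mem {l : B →ₗ[ℂ] ℂ} (hl : IsTan ρ l) (i b : Fin n) :
    tN h Y a l i b ∈ Sp h.lb (Hyp.A0 ∪ Hyp.A1 m 0) := by
  refine hr (fun b => tN h Y a l i b) ?_ ?_ b
  · intro b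
    refine h.mul_mem_univ (mem_Sp_of h.lb (S := Set.univ) (i := Sum.inl (-(a : ℤ))) trivial) ?_
    rw [← h.toSubmodule_U01 hm]
    exact Dl_mem l (Y.hg.1 i b)
  · intro j
    have h1 := congrFun (congrFun (t_glue h Y q hq ρ hY hl) i) j
    rw [Matrix.add_apply, Matrix.smul_apply, smul_eq_mul, Matrix.mul_apply] at h1
    have h2 : ∑ b, tN h Y a l i b * L0 h q b j =
        Dl l (Y.s0 i j) - h.x ^ (a : ℤ) * Dl l (Y.s1 i j) := by
      rw [Matrix.map_apply, Matrix.map_apply] at h1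
      rw [h1]
      ring
    rw [h2, Sp_union]
    refine Submodule.sub_mem _ (Submodule.mem_sup_left ?_) (Submodule.mem_sup_right ?_)
    · rw [← h.toSubmodule_U]
      exact Dl_mem l (Y.h0 i j)
    · exact xa_mul_mem h (Dl_mem l (Y.h1 i j))

theorem tP_mem (l : B →ₗ[ℂ] ℂ) (i b : Fin n) : tP h Y a l i b ∈ h.U := by
  have : tP h Y a l i b ∈ Subalgebra.toSubmodule h.U := by
    rw [h.toSubmodule_U]
    exact pj_mem _ _ _
  exact this

include hY hr in
theorem tP_sub_mem {l : B →ₗ[ℂ] ℂ} (hl : IsTan ρ l) (i b : Fin n) :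
    tP h Y a l i b - tN h Y a l i b ∈ h.swap.U := by
  have : tP h Y a l i b - tN h Y a l i b ∈ Subalgebra.toSubmodule h.swap.U := by
    rw [h.toSubmodule_swap_U', ← neg_sub]
    refine Submodule.neg_mem _ ?_
    refine Sp_mono _ ?_ (sub_pj_mem h.lb_indep Hyp.A0 (tN_mem h Y q hq ρ hY hr hl i b))
    rintro i ⟨h1 | h1, h2⟩
    · exact absurd h1 h2
    · exact h1
  exact this

include hY hr in
theorem tnu_mem {l : B →ₗ[ℂ] ℂ} (hl : IsTan ρ l) (i : Fin n) (j : Fin k) :
    tnu h Y q l i j ∈ Sp h.lb (Hyp.A0 ∩ Hyp.A1 m a) := by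
  rw [Sp_inter h.lb_indep]
  refine ⟨?_, ?_⟩
  · rw [← h.toSubmodule_U, tnu_apply, Matrix.sub_apply, Matrix.mul_apply]
    exact h.U.sub_mem (Dl_mem l (Y.h0 i j)) (Subalgebra.sum_mem _ fun b _ =>
      h.U.mul_mem (tP_mem h Y l _ _) (L0_mem h q _ _))
  · have h1 : tnu h Y q l i j = h.x ^ (a : ℤ) * (Dl l (Y.s1 i j) -
        ∑ b, (tP h Y a l i b - tN h Y a l i b) * L1 h q b j) := by
      rw [tnu_apply, t_glue h Y q hq ρ hY hl, Matrix.sub_apply, Matrix.add_apply,
        Matrix.smul_apply, smul_eq_mul, Matrix.map_apply, Matrix.mul_apply, Matrix.mul_apply,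
        mul_sub, Finset.mul_sum]
      have h2 : ∀ b, h.x ^ (a : ℤ) * ((tP h Y a l i b - tN h Y a l i b) * L1 h q b j) =
          tP h Y a l i b * L0 h q b j - tN h Y a l i b * L0 h q b j := by
        intro b
        rw [L0_eq]
        ring
      simp only [h2, Finset.sum_sub_distrib]
      ring
    rw [h1]
    exact xa_mul_mem h (h.swap.U.sub_mem (Dl_mem l (Y.h1 i j)) (Subalgebra.sum_mem _ fun b _ =>
      h.swap.U.mul_mem (tP_sub_mem h Y q hq ρ hY hr hl _ _) (L1_mem h q _ _)))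

include hY hr in
/-- If the corrected first order part is an infinitesimal change of basis, the tangent vector is
trivial. -/
theorem iso_of_tnu {l : B →ₗ[ℂ] ℂ} (hl : IsTan ρ l) (r : Ar ℂ n k a)
    (hrr : r ∈ LinearMap.range (Phi q)) (hL : L0 h r = tnu h Y q l)
    (D : Type) [CommRing D] [Algebra ℂ D] (e : D) (he : e * e = 0) :
    CohSys.Iso (Y.map (tanHom D e he ρ 0 (IsTan.zero ρ))) (Y.map (tanHom D e he ρ l hl)) := by
  obtain ⟨⟨p, β⟩, rfl⟩ := hrr
  rw [L0_Phi, tnu_apply] at hL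
  have T0 : Y.s0.map (Dl l) = (tP h Y a l + β.map (algebraMap ℂ F)) * L0 h q +
      L0 h q * p.map (algebraMap ℂ F) := by
    rw [Matrix.add_mul]
    rw [eq_sub_iff_add_eq] at hL
    rw [← hL]
    abel
  have hβ : ∀ i b, β.map (algebraMap ℂ F) i b = algebraMap ℂ F (β i b) := fun i b => rfl
  refine CohSys.iso_of_first_order D e he Y ρ l hl
    (tP h Y a l + β.map (algebraMap ℂ F))
    (tP h Y a l - tN h Y a l + β.map (algebraMap ℂ F))
    (fun i b => h.U.add_mem (tP_mem h Y l i b) (h.U.algebraMap_mem _))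
    (fun i b => h.swap.U.add_mem (tP_sub_mem h Y q hq ρ hY hr hl i b)
      (h.swap.U.algebraMap_mem _)) p ?_ ?_ ?_
  · rw [tN_smul h Y (a := a), ev_g h Y q hq ρ hY]
    ext i b
    simp only [Matrix.scalar_apply, Matrix.add_apply, Matrix.sub_apply, Matrix.smul_apply,
      smul_eq_mul, Matrix.diagonal_mul, Matrix.mul_diagonal]
    ring
  · rw [ev_s0 h Y q hq ρ hY]
    exact T0
  · rw [ev_s1 h Y q hq ρ hY]
    have hx : h.x ^ (a : ℤ) ≠ 0 := zpow_ne_zero _ h.x_ne
    have h1 : h.x ^ (a : ℤ) • Y.s1.map (Dl l) = h.x ^ (a : ℤ) •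
        ((tP h Y a l - tN h Y a l + β.map (algebraMap ℂ F)) * L1 h q +
          L1 h q * p.map (algebraMap ℂ F)) := by
      rw [smul_add, ← Matrix.mul_smul, ← Matrix.smul_mul, ← L0_eq_smul]
      have h2 := t_glue h Y q hq ρ hY hl
      rw [T0] at h2
      rw [Matrix.add_mul, Matrix.sub_mul]
      rw [Matrix.add_mul] at h2
      rw [← sub_eq_iff_eq_add] at h2
      rw [← h2]
      abel
    exact smul_right_injective _ hx h1

end tangent

/-- The tangent space to the moduli space at the coherent system has dimension at most the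
codimension of the infinitesimal changes of basis. -/
theorem tangentBound (hm : 0 < m) (ham : a < m) (q : Ar ℂ n k a)
    (hq : LinearIndependent ℂ fun (j : Fin k) (i : Fin n) => L0 h q i j) (hr : Rigid h q)
    {N : ℕ} (hN : Module.finrank ℂ (LinearMap.range (Phi q)) + N =
      Module.finrank ℂ (Ar ℂ n k a)) : CohSys.TangentBound (sys h hm q hq) N := by
  intro B _ _ ρ Y hY hunr f hf hli
  obtain ⟨c, ⟨i, hi⟩, r, hrr, hL⟩ := exists_dep (L0 h) (LinearMap.range (Phi q)) hN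
    (tnu h Y q) f (by
      intro i
      obtain ⟨v, hv⟩ := exists_L0 h ham (tnu h Y q (f i))
        (tnu_mem h Y q hq ρ hY hr (hf i))
      exact ⟨v, hv.symm⟩)
  have htan : IsTan ρ (∑ i, c i • f i) := IsTan.sum _ fun i => (hf i).smul (c i)
  have h0 := hunr _ htan (iso_of_tnu h Y q hq ρ hY hr htan r hrr hL _ _ _)
  rw [Fintype.linearIndependent_iff] at hli
  exact hi (hli c h0 i)

theorem localDim_le (hm : 0 < m) (ham : a < m) (q : Ar ℂ n k a)
    (hq : LinearIndependent ℂ fun (j : Fin k) (i : Fin n) => L0 h q i j) (hr : Rigid h q)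
    {N : ℕ} (hN : Module.finrank ℂ (LinearMap.range (Phi q)) + N =
      Module.finrank ℂ (Ar ℂ n k a)) : (sys h hm q hq).localDim ≤ N :=
  CohSys.localDim_le (tangentBound h hm ham q hq hr hN)

end Pool.Agent.CSQ
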